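import Pool.Agent.D0H79.HX.Fin

/-!
# Bounded products of conjugates
-/

set_option autoImplicit false

open Set Filter Topology Function MeasureTheory
open Pool.Agent.Y453.HB
open Pool.Agent.Y309.HB
open Pool.Agent.N235.DH
open scoped Pointwise

namespace Pool.Agent.D0H79.HX

attribute [local instance] htop
attribute [local instance] polish
attribute [local instance] topGroup

variable {n : ℕ}

theorem eps_nhd {K : Set (E n)} (hK : IsCompact K) {ε : ℝ} (hε : 0 < ε) :
    ∃ U ∈ 𝓝 (1 : E n ≃ₜ E n), ∀ φ ∈ U, (∀ x, x ∉ K → φ x = x) → ∀ x, dist (φ x) x < ε := by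
  have h1 : Tendsto (fun φ : E n ≃ₜ E n => (pr φ).1) (𝓝 1) (𝓝 (pr (1 : E n ≃ₜ E n)).1) :=
    (continuous_fst.comp pr_cont).tendsto 1
  rw [ContinuousMap.tendsto_iff_forall_isCompact_tendstoUniformlyOn] at h1
  have h2 := Metric.tendstoUniformlyOn_iff.1 (h1 K hK) ε hε
  refine ⟨_, h2, fun φ hφ hs x => ?_⟩
  by_cases hx : x ∈ K
  · have h3 : dist x (φ x) < ε := hφ x hx
    rwa [dist_comm]
  · rw [hs x hx, dist_self]
    exact hε

/-- a product of at most `m` conjugates of `g` and `g⁻¹` -/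
def PC {G : Type} [Group G] (g : G) (m : ℕ) (φ : G) : Prop :=
  ∃ l : List G, l.length ≤ m ∧ (∀ y ∈ l, IsConj g y ∨ IsConj g⁻¹ y) ∧ l.prod = φ

theorem pc_of_pow {G : Type} [Group G] (g : G) (m : ℕ) (φ : G)
    (h : φ ∈ (sym (Group.conjugatesOfSet {g})) ^ m) : PC g m φ := by
  induction m generalizing φ with
  | zero =>
    rw [pow_zero] at h
    exact ⟨[], by simp, by simp, by rw [List.prod_nil, Set.mem_one.1 h]⟩
  | succ m ih =>
    rw [pow_succ'] at h
    obtain ⟨a, ha, b, hb, rfl⟩ := h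
    obtain ⟨l, hl1, hl2, hl3⟩ := ih b hb
    refine ⟨a :: l, by simp [hl1], ?_, by rw [List.prod_cons, hl3]⟩
    intro y hy
    rcases List.mem_cons.1 hy with rfl | hy
    · rcases ha with h1 | h1
      · left
        obtain ⟨c, hc, h2⟩ := Group.mem_conjugatesOfSet_iff.1 h1
        rw [mem_singleton_iff.1 hc] at h2
        exact h2
      · right
        obtain ⟨c, hc, h2⟩ := Group.mem_conjugatesOfSet_iff.1 (Set.mem_inv.1 h1)
        rw [mem_singleton_iff.1 hc] at h2
        obtain ⟨d, hd⟩ := isConj_iff.1 h2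
        refine isConj_iff.2 ⟨d, ?_⟩
        have h3 := congrArg (fun z => z⁻¹) hd
        simp only [inv_inv] at h3
        rw [← h3]
        group
    · exact hl2 y hy

theorem pc_mem {G : Type} [Group G] {g : G} {m : ℕ} {φ : G} (h : PC g m φ) :
    φ ∈ Subgroup.normalClosure {g} := by
  obtain ⟨l, -, hl2, rfl⟩ := h
  have hg : g ∈ Subgroup.normalClosure {g} := Subgroup.subset_normalClosure rfl
  refine Subgroup.list_prod_mem _ fun y hy => ?_
  rcases hl2 y hy with h1 | h1
  · obtain ⟨c, rfl⟩ := isConj_iff.1 h1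
    exact Subgroup.normalClosure_normal.conj_mem _ hg c
  · obtain ⟨c, rfl⟩ := isConj_iff.1 h1
    exact Subgroup.normalClosure_normal.conj_mem _ (Subgroup.inv_mem _ hg) c

/-- An element generates the group as a normal subgroup if and only if the limits near the identity
with support in a compact set are products of a bounded number of its conjugates. -/
theorem crit (g : HamBar n) : Subgroup.normalClosure {g} = ⊤ ↔
    ∀ K : Set (E n), IsCompact K → K ⊆ {p : E n | Q p < 1} → ∃ (m : ℕ) (ε : ℝ), 0 < ε ∧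
      ∀ φ : HamBar n, φ.1 ∈ HK n K → (∀ x, dist (φ.1 x) x < ε) → PC g m φ := by
  constructor
  · intro h K hK hKQ
    obtain ⟨k, hk⟩ := exists_Bd hK hKQ
    obtain ⟨m, ε, hε, hm⟩ := bounded (an_conj an_ham (an_singleton g)) k (fun φ => by
      have h1 : inc n k φ ∈ Subgroup.normalClosure {g} := by
        rw [h]
        trivial
      exact h1)
    refine ⟨m, ε, hε, fun φ hφ hd => ?_⟩
    exact pc_of_pow g m φ (hm ⟨φ.1, HK_mono hk hφ⟩ hd)
  · intro h
    rw [eq_top_iff]
    intro φ _
    have h1 : HamBar n ≤ (Subgroup.normalClosure {g}).map (HamBar n).subtype := by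
      refine open_all fun k => ?_
      obtain ⟨m, ε, hε, hm⟩ := h (Bd n k) (Bd_compact k) (Bd_sub k)
      obtain ⟨U, hU, hUε⟩ := eps_nhd (Bd_compact (n := n) k) hε
      refine ⟨U, hU, fun ψ hψ hψU => ?_⟩
      have h2 : ψ ∈ HamBar n := mem_ham.2 (HK_hamBar (Bd_compact k) (Bd_sub k) hψ)
      exact ⟨⟨ψ, h2⟩, pc_mem (hm ⟨ψ, h2⟩ hψ (hUε ψ hψU hψ.1)), rfl⟩
    obtain ⟨ψ, hψ, hψφ⟩ := h1 φ.2
    have : ψ = φ := Subtype.ext hψφ
    rwa [← this]

/-- normal closures of countable sets -/
theorem countable_nc {X : Set (HamBar n)} (hX : X.Countable) :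
    Subgroup.normalClosure X = ⊤ ∨
      Cardinal.mk (HamBar n ⧸ Subgroup.normalClosure X) = Cardinal.continuum :=
  dich _ (an_normalClosure an_ham (an_countable hX))

/-- the abelianization -/
theorem abel : commutator (HamBar n) = ⊤ ∨
    Cardinal.mk (HamBar n ⧸ commutator (HamBar n)) = Cardinal.continuum :=
  dich _ (an_commutator an_ham)

theorem nontriv (hn : 0 < n) : ∃ g : HamBar n, g ≠ 1 := by
  obtain ⟨S, -, hS, -⟩ := Pool.Agent.R773.HN.main_of' Pool.Agent.R773.HN.hSm
    Pool.Agent.R773.HN.hCo hn (HamBar n)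
    (fun u hu => mem_ham.2 (ham_mem hu)) le_rfl
  have := hS.toNontrivial
  obtain ⟨g, hg⟩ := exists_ne (1 : S)
  exact ⟨g.1, fun h => hg (Subtype.ext h)⟩

/-- simplicity and finite normal generation -/
theorem simple_iff (hn : 0 < n) : IsSimpleGroup (HamBar n) ↔
    ∃ X : Set (HamBar n), X.Finite ∧ Subgroup.normalClosure X = ⊤ := by
  constructor
  · intro h
    obtain ⟨g, hg⟩ := nontriv hn
    refine ⟨{g}, finite_singleton g, ?_⟩
    rcases h.eq_bot_or_eq_top_of_normal (Subgroup.normalClosure {g})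
      Subgroup.normalClosure_normal with h1 | h1
    · exfalso
      have h2 : g ∈ Subgroup.normalClosure {g} := Subgroup.subset_normalClosure rfl
      rw [h1, Subgroup.mem_bot] at h2
      exact hg h2
    · exact h1
  · rintro ⟨X, hX, hXt⟩
    by_contra hns
    obtain ⟨N, hN, hXN, hc⟩ := dichotomy hn hns hX
    have h1 : N = ⊤ := by
      rw [eq_top_iff, ← hXt]
      exact Subgroup.normalClosure_le_normal hXN
    rw [h1] at hc
    have h2 : Cardinal.mk (HamBar n ⧸ (⊤ : Subgroup (HamBar n))) ≤ 1 :=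
      Cardinal.le_one_iff_subsingleton.2 QuotientGroup.subsingleton_quotient_top
    rw [hc] at h2
    exact absurd h2 (not_le.2 (Cardinal.one_lt_aleph0.trans Cardinal.aleph0_lt_continuum))

end Pool.Agent.D0H79.HX
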