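import Mathlib

/-!
# Analytic subsets of topological groups
-/

set_option autoImplicit false

open Set Filter Topology Function MeasureTheory
open scoped Pointwise

namespace Pool.Agent.D0H79.HX

section

variable {G : Type} [Group G] [TopologicalSpace G] [IsTopologicalGroup G]

theorem an_mul {A B : Set G} (hA : AnalyticSet A) (hB : AnalyticSet B) : AnalyticSet (A * B) := by
  obtain ⟨β, _, _, f, hf, rfl⟩ := analyticSet_iff_exists_polishSpace_range.1 hA
  obtain ⟨γ, _, _, g, hg, rfl⟩ := analyticSet_iff_exists_polishSpace_range.1 hB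
  have h : range f * range g = range fun p : β × γ => f p.1 * g p.2 := by
    ext x
    constructor
    · rintro ⟨_, ⟨a, rfl⟩, _, ⟨b, rfl⟩, rfl⟩
      exact ⟨(a, b), rfl⟩
    · rintro ⟨⟨a, b⟩, rfl⟩
      exact ⟨_, ⟨a, rfl⟩, _, ⟨b, rfl⟩, rfl⟩
  rw [h]
  exact analyticSet_range_of_polishSpace ((hf.comp continuous_fst).mul (hg.comp continuous_snd))

theorem an_inv {A : Set G} (hA : AnalyticSet A) : AnalyticSet A⁻¹ := by
  rw [← Set.image_inv_eq_inv]
  exact hA.image_of_continuous continuous_inv

theorem an_union {α : Type} [TopologicalSpace α] {A B : Set α} (hA : AnalyticSet A)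
    (hB : AnalyticSet B) : AnalyticSet (A ∪ B) := by
  rw [union_eq_iUnion]
  refine AnalyticSet.iUnion fun b => ?_
  cases b
  · exact hB
  · exact hA

theorem an_singleton {α : Type} [TopologicalSpace α] (a : α) : AnalyticSet ({a} : Set α) := by
  have h : ({a} : Set α) = range fun _ : Unit => a := by simp
  rw [h]
  exact analyticSet_range_of_polishSpace continuous_const

theorem an_pow {A : Set G} (hA : AnalyticSet A) (m : ℕ) : AnalyticSet (A ^ m) := by
  induction m with
  | zero =>
    rw [pow_zero]
    exact an_singleton 1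
  | succ m ih =>
    rw [pow_succ]
    exact an_mul ih hA

/-- the elements of a subset and their inverses -/
def sym {G : Type} [Group G] (A : Set G) : Set G := A ∪ A⁻¹

theorem an_sym {A : Set G} (hA : AnalyticSet A) : AnalyticSet (sym A) := an_union hA (an_inv hA)

omit [TopologicalSpace G] [IsTopologicalGroup G] in
theorem closure_eq (A : Set G) : (Subgroup.closure A : Set G) = ⋃ m : ℕ, sym A ^ m := by
  refine Set.Subset.antisymm ?_ ?_
  · intro x hx
    have hx' : x ∈ Subgroup.closure A := hx
    induction hx' using Subgroup.closure_induction_left with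
    | one => exact mem_iUnion.2 ⟨0, by rw [pow_zero]; exact Set.one_mem_one⟩
    | mul_left a ha y hy ih =>
      obtain ⟨m, hm⟩ := mem_iUnion.1 (ih hy)
      refine mem_iUnion.2 ⟨m + 1, ?_⟩
      rw [pow_succ']
      exact Set.mul_mem_mul (Or.inl ha) hm
    | inv_mul_cancel a ha y hy ih =>
      obtain ⟨m, hm⟩ := mem_iUnion.1 (ih hy)
      refine mem_iUnion.2 ⟨m + 1, ?_⟩
      rw [pow_succ']
      exact Set.mul_mem_mul (Or.inr (by simpa using ha)) hm
  · have key : ∀ m : ℕ, ∀ x ∈ sym A ^ m, x ∈ (Subgroup.closure A : Set G) := by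
      intro m
      induction m with
      | zero =>
        intro x hm
        rw [pow_zero] at hm
        rw [Set.mem_one.1 hm]
        exact (Subgroup.closure A).one_mem
      | succ m ih =>
        intro x hm
        rw [pow_succ] at hm
        obtain ⟨a, ha, b, hb, rfl⟩ := hm
        refine (Subgroup.closure A).mul_mem (ih a ha) ?_
        rcases hb with h | h
        · exact Subgroup.subset_closure h
        · exact (Subgroup.inv_mem_iff _).1 (Subgroup.subset_closure h)
    exact iUnion_subset fun m x hx => key m x hx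

theorem an_closure {A : Set G} (hA : AnalyticSet A) :
    AnalyticSet (Subgroup.closure A : Set G) := by
  rw [closure_eq]
  exact AnalyticSet.iUnion fun m => an_pow (an_sym hA) m

omit [TopologicalSpace G] [IsTopologicalGroup G] in
theorem conj_eq (A : Set G) : Group.conjugatesOfSet A =
    (fun p : G × G => p.1 * p.2 * p.1⁻¹) '' (univ ×ˢ A) := by
  ext x
  rw [Group.mem_conjugatesOfSet_iff]
  constructor
  · rintro ⟨a, ha, h⟩
    obtain ⟨c, hc⟩ := isConj_iff.1 h
    exact ⟨(c, a), ⟨trivial, ha⟩, hc⟩
  · rintro ⟨⟨c, a⟩, ⟨-, ha⟩, rfl⟩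
    exact ⟨a, ha, isConj_iff.2 ⟨c, rfl⟩⟩

theorem an_conj (hu : AnalyticSet (univ : Set G)) {A : Set G} (hA : AnalyticSet A) :
    AnalyticSet (Group.conjugatesOfSet A) := by
  rw [conj_eq]
  obtain ⟨β, _, _, f, hf, hfr⟩ := analyticSet_iff_exists_polishSpace_range.1 hu
  obtain ⟨γ, _, _, g, hg, rfl⟩ := analyticSet_iff_exists_polishSpace_range.1 hA
  have h : (fun p : G × G => p.1 * p.2 * p.1⁻¹) '' (univ ×ˢ range g) =
      range fun p : β × γ => f p.1 * g p.2 * (f p.1)⁻¹ := by
    ext x
    constructor
    · rintro ⟨⟨a, b⟩, ⟨-, ⟨y, rfl⟩⟩, rfl⟩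
      have ha : a ∈ range f := by rw [hfr]; trivial
      obtain ⟨z, rfl⟩ := ha
      exact ⟨(z, y), rfl⟩
    · rintro ⟨⟨z, y⟩, rfl⟩
      exact ⟨(f z, g y), ⟨trivial, ⟨y, rfl⟩⟩, rfl⟩
  rw [h]
  exact analyticSet_range_of_polishSpace
    (((hf.comp continuous_fst).mul (hg.comp continuous_snd)).mul (hf.comp continuous_fst).inv)

theorem an_normalClosure (hu : AnalyticSet (univ : Set G)) {A : Set G} (hA : AnalyticSet A) :
    AnalyticSet (Subgroup.normalClosure A : Set G) := an_closure (an_conj hu hA)

theorem an_countable {α : Type} [TopologicalSpace α] {A : Set α} (hA : A.Countable) :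
    AnalyticSet A := by
  have h : A = ⋃ a ∈ A, {a} := by simp
  have := hA.to_subtype
  rw [h, biUnion_eq_iUnion]
  exact AnalyticSet.iUnion fun a => an_singleton _

/-- the commutator subgroup -/
theorem an_commutator (hu : AnalyticSet (univ : Set G)) :
    AnalyticSet (commutator G : Set G) := by
  rw [commutator_eq_closure]
  refine an_closure ?_
  obtain ⟨β, _, _, f, hf, hfr⟩ := analyticSet_iff_exists_polishSpace_range.1 hu
  have h : commutatorSet G =
      range fun p : β × β => f p.1 * f p.2 * (f p.1)⁻¹ * (f p.2)⁻¹ := by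
    ext x
    rw [mem_commutatorSet_iff]
    constructor
    · rintro ⟨a, b, rfl⟩
      have ha : a ∈ range f := by rw [hfr]; trivial
      have hb : b ∈ range f := by rw [hfr]; trivial
      obtain ⟨y, rfl⟩ := ha
      obtain ⟨z, rfl⟩ := hb
      exact ⟨(y, z), rfl⟩
    · rintro ⟨⟨y, z⟩, rfl⟩
      exact ⟨f y, f z, rfl⟩
  rw [h]
  have h1 : Continuous fun p : β × β => f p.1 := hf.comp continuous_fst
  have h2 : Continuous fun p : β × β => f p.2 := hf.comp continuous_snd
  exact analyticSet_range_of_polishSpace (((h1.mul h2).mul h1.inv).mul h2.inv)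

end

end Pool.Agent.D0H79.HX
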