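import Pool.Agent.Helper59.AC1
import Pool.Agent.H565R2.FO2.Myc

/-!
# Analytic subgroups of Polish groups
-/

set_option autoImplicit false

open Set Filter Topology Function MeasureTheory

namespace Pool.Agent.D0H79.HX

variable {L : Type} [Group L] [TopologicalSpace L] [IsTopologicalGroup L] [PolishSpace L]

/-- The quotients of a nonmeager analytic set are a neighbourhood of `1`. -/
theorem pettis {A : Set L} (hA : AnalyticSet A) (hn : ¬ IsMeagre A) :
    ∃ U ∈ 𝓝 (1 : L), ∀ h ∈ U, ∃ a ∈ A, ∃ b ∈ A, h = a * b⁻¹ := by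
  letI := TopologicalSpace.upgradeIsCompletelyMetrizable L
  obtain ⟨U', -, hU1, ⟨o, ho⟩, hU2⟩ := Pool.Agent.Helper59.Pettis.lemA A univ isOpen_univ
    (by rwa [inter_univ])
  have hK : U' ⊆ Pool.Agent.Helper59.AC.K A := by
    intro x hx V hV hxV hm
    exact hU2 (V ∩ U') inter_subset_right (hV.inter hU1) ⟨x, hxV, hx⟩
      (hm.mono (inter_subset_inter_right _ inter_subset_left))
  have hm : IsMeagre (U' \ A) :=
    (Pool.Agent.Helper59.AC.bp A hA).mono (diff_subset_diff_left hK)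
  refine ⟨{h | h * o ∈ U'}, ?_, fun h hh => ?_⟩
  · refine (hU1.preimage (continuous_id.mul continuous_const)).mem_nhds ?_
    show (1 : L) * o ∈ U'
    rwa [one_mul]
  · have e : Continuous fun x : L => h⁻¹ * x := continuous_const.mul continuous_id
    have hB : IsOpen (U' ∩ (fun x : L => h⁻¹ * x) ⁻¹' U') := hU1.inter (hU1.preimage e)
    have hm2 : IsMeagre ((fun x : L => h⁻¹ * x) ⁻¹' (U' \ A)) :=
      hm.preimage_of_isOpenMap e (isOpenMap_mul_left h⁻¹)
    have hne : ¬ IsMeagre (U' ∩ (fun x : L => h⁻¹ * x) ⁻¹' U') := by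
      intro hc
      refine not_isMeagre_of_isOpen hB ⟨h * o, hh, ?_⟩ hc
      show h⁻¹ * (h * o) ∈ U'
      rwa [inv_mul_cancel_left]
    have hx : ∃ x ∈ U' ∩ (fun x : L => h⁻¹ * x) ⁻¹' U', x ∈ A ∧ h⁻¹ * x ∈ A := by
      by_contra hcon
      push Not at hcon
      refine hne ((hm.union hm2).mono ?_)
      rintro x ⟨hx1, hx2⟩
      by_cases hxA : x ∈ A
      · exact Or.inr ⟨hx2, hcon x ⟨hx1, hx2⟩ hxA⟩
      · exact Or.inl ⟨hx1, hxA⟩
    obtain ⟨x, -, hx1, hx2⟩ := hx
    refine ⟨x, hx1, h⁻¹ * x, hx2, ?_⟩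
    group

/-- An analytic subgroup which is not open has at least continuum many cosets. -/
theorem index {N : Subgroup L} (hN : AnalyticSet (N : Set L)) (hU : (N : Set L) ∉ 𝓝 (1 : L)) :
    Cardinal.continuum ≤ Cardinal.mk (L ⧸ N) := by
  have hm : IsMeagre (N : Set L) := by
    by_contra hcon
    obtain ⟨U, hU1, hU2⟩ := pettis hN hcon
    refine hU (mem_of_superset hU1 fun h hh => ?_)
    obtain ⟨a, ha, b, hb, rfl⟩ := hU2 h hh
    exact N.mul_mem ha (N.inv_mem hb)
  obtain ⟨t, ht1, ht2, ht3⟩ := mem_residual.1 hm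
  obtain ⟨V, hV1, hV2⟩ := isGδ_iff_eq_iInter_nat.1 ht2
  have hop : IsOpenMap fun p : L × L => p.1⁻¹ * p.2 :=
    isOpenMap_snd.comp (Homeomorph.shearMulRight L).symm.isOpenMap
  have hco : Continuous fun p : L × L => p.1⁻¹ * p.2 := continuous_fst.inv.mul continuous_snd
  obtain ⟨h, -, hh⟩ := Pool.Agent.H565R2.FO2.mycielski' (G := L)
    (fun n => (fun p : L × L => p.1⁻¹ * p.2) ⁻¹' V n)
    (fun n => (hV1 n).preimage hco) (fun n => by
      refine Dense.preimage ?_ hop
      refine ht3.mono ?_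
      rw [hV2]
      exact iInter_subset _ n)
  have hinj : Injective fun b : ℕ → Bool => (QuotientGroup.mk (h b) : L ⧸ N) := by
    intro b b' hbb
    by_contra hne
    have h1 : (h b)⁻¹ * h b' ∈ N := QuotientGroup.eq.1 hbb
    have h2 : (h b)⁻¹ * h b' ∈ t := by
      rw [hV2]
      exact mem_iInter.2 fun n => hh b b' hne n
    exact ht1 h2 h1
  have h3 := Cardinal.mk_le_of_injective hinj
  have h4 : Cardinal.mk (ℕ → Bool) = Cardinal.continuum := by simp
  rwa [h4] at h3

end Pool.Agent.D0H79.HX
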