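import Pool.Agent.D0H79.HX.Pot
import Pool.Agent.N235.DH.Key

/-!
# Dilations of Hamiltonian diffeomorphisms are Hamiltonian isotopic to them
-/

set_option autoImplicit false

open Set Filter Topology Function
open scoped ContDiff
open Pool.Agent.Y453.HB
open Pool.Agent.Y309.HB
open Pool.Agent.R773.HN (nm nm_nonneg nm_smul nm_cont)

namespace Pool.Agent.D0H79.HX

variable {n : ℕ}

theorem Q_le_iff {x : E n} {c : ℝ} (hc : 0 ≤ c) : Q x ≤ c ^ 2 ↔ nm x ≤ c := by
  unfold nm
  rw [Real.sqrt_le_left hc]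

/-- the conjugate by the dilation -/
noncomputable def dl {s : ℝ} (hs : 0 < s) (u : E n ≃ₜ E n) : E n ≃ₜ E n :=
  dil s hs * u * (dil s hs)⁻¹

theorem dl_apply {s : ℝ} (hs : 0 < s) (u : E n ≃ₜ E n) (x : E n) :
    dl hs u x = s • u (s⁻¹ • x) := rfl

theorem dl_inv {s : ℝ} (hs : 0 < s) (u : E n ≃ₜ E n) : (dl hs u)⁻¹ = dl hs u⁻¹ := by
  unfold dl
  group

theorem path_ham (hn : 0 < n) {u : E n ≃ₜ E n} (hu : IsHam u) {r : ℝ} (hr : 0 ≤ r)
    (hsupp : ∀ x, r < nm x → u x = x) {a b : ℝ} (ha : 0 < a) (hb : 0 < b) (har : a * r < 1)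
    (hbr : b * r < 1) : IsHam (dl hb u * (dl ha u)⁻¹) := by
  obtain ⟨g, hg1, hg2, hg3⟩ := exists_pot hn hu hr hsupp
  obtain ⟨hu1, hu2, -⟩ := ham_sympl hu
  set β : ℝ → ℝ := Real.smoothTransition with hβd
  have hβ : ContDiff ℝ ∞ β := Real.smoothTransition.contDiff
  have hβ0 : ∀ t, 0 ≤ β t := fun t => Real.smoothTransition.nonneg t
  have hβ1 : ∀ t, β t ≤ 1 := fun t => Real.smoothTransition.le_one t
  set s : ℝ → ℝ := fun t => a + (b - a) * β t with hsd
  have hs : ContDiff ℝ ∞ s := contDiff_const.add (contDiff_const.mul hβ)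
  have hs' : ContDiff ℝ ∞ (deriv s) := (contDiff_infty_iff_deriv.1 hs).2
  have hspos : ∀ t, 0 < s t := by
    intro t
    have h1 : s t = a * (1 - β t) + b * β t := by rw [hsd]; ring
    rw [h1]
    rcases (hβ0 t).lt_or_eq with h | h
    · have h2 : 0 ≤ a * (1 - β t) := mul_nonneg ha.le (by linarith [hβ1 t])
      have h3 : 0 < b * β t := mul_pos hb h
      linarith
    · rw [← h]
      linarith
  have hsr : ∀ t, s t * r ≤ max (a * r) (b * r) := by
    intro t
    have h1 : s t * r = (a * r) * (1 - β t) + (b * r) * β t := by rw [hsd]; ring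
    rw [h1]
    have h2 : (a * r) * (1 - β t) ≤ max (a * r) (b * r) * (1 - β t) :=
      mul_le_mul_of_nonneg_right (le_max_left _ _) (by linarith [hβ1 t])
    have h3 : (b * r) * β t ≤ max (a * r) (b * r) * β t :=
      mul_le_mul_of_nonneg_right (le_max_right _ _) (hβ0 t)
    linarith
  set R : ℝ := max (a * r) (b * r) with hRd
  have hR0 : 0 ≤ R := (mul_nonneg ha.le hr).trans (le_max_left _ _)
  have hR1 : R < 1 := max_lt har hbr
  set w : E n → E n := fun x => (dl ha u)⁻¹ x with hwd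
  have hw : ∀ x, w x = a • u⁻¹ (a⁻¹ • x) := fun x => by
    rw [hwd]
    simp only [dl_inv, dl_apply]
  set c : ℝ → ℝ := fun t => deriv s t * s t with hcd
  have hgd : ∀ z, HasFDerivAt g (fderiv ℝ g z) z := fun z =>
    (hg1.differentiable (by simp) z).hasFDerivAt
  refine ⟨fun t p => c t * g ((s t)⁻¹ • p), ?_, ⟨{x | Q x ≤ R ^ 2}, Q_compact _, ?_, ?_⟩,
    fun t x => s t • u ((s t)⁻¹ • w x), ?_, ?_, ?_⟩
  · -- smoothness
    have h1 : ContDiff ℝ ∞ (fun p : ℝ × E n => (s p.1)⁻¹ • p.2) :=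
      ((hs.comp contDiff_fst).inv fun p => (hspos p.1).ne').smul contDiff_snd
    exact ((hs'.mul hs).comp contDiff_fst).mul (hg1.comp h1)
  · intro x hx
    have h1 : Q x ≤ R ^ 2 := hx
    show Q x < 1
    nlinarith
  · intro t x hx
    have h1 : ¬ Q x ≤ R ^ 2 := hx
    rw [Q_le_iff hR0, not_le] at h1
    have h2 : r < nm ((s t)⁻¹ • x) := by
      rw [nm_smul, abs_of_pos (inv_pos.2 (hspos t)), inv_mul_eq_div, lt_div_iff₀ (hspos t)]
      calc r * s t = s t * r := mul_comm _ _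
        _ ≤ R := hsr t
        _ < nm x := h1
    show c t * g ((s t)⁻¹ • x) = 0
    rw [hg2 _ h2, mul_zero]
  · intro x
    have h1 : s 0 = a := by
      rw [hsd]
      simp [hβd, Real.smoothTransition.zero]
    show s 0 • u ((s 0)⁻¹ • w x) = x
    rw [h1, hw, inv_smul_smul₀ ha.ne', apply_inv_self, smul_inv_smul₀ ha.ne']
  · intro t x
    set y : E n := (s t)⁻¹ • w x with hyd
    have hst : HasDerivAt s (deriv s t) t := (hs.differentiable (by simp) t).hasDerivAt
    have hy : HasDerivAt (fun τ => (s τ)⁻¹ • w x) ((-deriv s t / (s t) ^ 2) • w x) t :=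
      (hst.fun_inv (hspos t).ne').smul_const (w x)
    have hux : HasFDerivAt (fun x => u x) (fderiv ℝ (fun x => u x) y) y :=
      (hu1.differentiable (by simp) y).hasFDerivAt
    have h1 : HasDerivAt (fun τ => u ((s τ)⁻¹ • w x))
        (fderiv ℝ (fun x => u x) y ((-deriv s t / (s t) ^ 2) • w x)) t :=
      HasFDerivAt.comp_hasDerivAt (l := fun x => u x) t hux hy
    have h2 := hst.fun_smul h1
    have h3 : XH (fun p => c t * g ((s t)⁻¹ • p)) (s t • u y) =
        deriv s t • XH g (u y) := by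
      have h4 : HasFDerivAt (fun p : E n => c t * g ((s t)⁻¹ • p))
          (c t • (fderiv ℝ g (u y)).comp ((s t)⁻¹ • ContinuousLinearMap.id ℝ (E n)))
          (s t • u y) := by
        have h5 : HasFDerivAt (fun p : E n => (s t)⁻¹ • p)
            ((s t)⁻¹ • ContinuousLinearMap.id ℝ (E n)) (s t • u y) :=
          ((s t)⁻¹ • ContinuousLinearMap.id ℝ (E n)).hasFDerivAt
        have h6 : HasFDerivAt g (fderiv ℝ g (u y)) ((s t)⁻¹ • s t • u y) := by
          rw [inv_smul_smul₀ (hspos t).ne']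
          exact hgd _
        exact (HasFDerivAt.comp (g := g) (s t • u y) h6 h5).const_mul (c t)
      have h7 : ∀ v, fderiv ℝ (fun p : E n => c t * g ((s t)⁻¹ • p)) (s t • u y) v =
          deriv s t * fderiv ℝ g (u y) v := by
        intro v
        rw [h4.fderiv]
        simp only [smul_apply, ContinuousLinearMap.comp_apply, ContinuousLinearMap.id_apply,
          map_smul, smul_eq_mul]
        rw [hcd]
        have := (hspos t).ne'
        field_simp
      unfold XH
      apply Prod.ext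
      · funext i
        simp only [h7, Prod.smul_mk, Pi.smul_apply, smul_eq_mul]
      · funext i
        simp only [h7, Prod.smul_mk, Pi.smul_apply, smul_eq_mul, mul_neg]
    show HasDerivAt (fun τ => s τ • u ((s τ)⁻¹ • w x))
      (XH (fun p => c t * g ((s t)⁻¹ • p)) (s t • u y)) t
    rw [h3, hg3]
    refine h2.congr_deriv ?_
    have h8 : w x = s t • y := by
      rw [hyd, smul_inv_smul₀ (hspos t).ne']
    have h9 : s t * (-deriv s t / s t ^ 2 * s t) = -deriv s t := by
      have := (hspos t).ne'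
      field_simp
    rw [← hyd, h8, smul_smul, map_smul, smul_smul, smul_sub, h9, neg_smul]
    abel
  · intro x
    have h1 : s 1 = b := by
      rw [hsd]
      simp [hβd, Real.smoothTransition.one]
    show (dl hb u * (dl ha u)⁻¹) x = s 1 • u ((s 1)⁻¹ • w x)
    rw [h1, mul_apply, dl_apply]

/-- dilations with a factor greater than one of the diffeomorphisms with small support -/
theorem ham_expand (hn : 0 < n) {u : E n ≃ₜ E n} (hu : IsHam u) {r : ℝ} (hr : 0 ≤ r)
    (hr1 : r < 1) (hsupp : ∀ x, r < nm x → u x = x) {b : ℝ} (hb : 0 < b) (hbr : b * r < 1) :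
    IsHam (dl hb u) := by
  have h1 := path_ham hn hu hr hsupp one_pos hb (by rwa [one_mul]) hbr
  have h2 : dl one_pos u = u := by
    refine Homeomorph.ext fun x => ?_
    rw [dl_apply]
    simp
  rw [h2] at h1
  have h3 := Pool.Agent.Y907.HB.mul n _ _ h1 hu
  rwa [inv_mul_cancel_right] at h3

open Pool.Agent.N235.DH in
/-- dilations of limits of Hamiltonian diffeomorphisms -/
theorem HK_expand (hn : 0 < n) {r : ℝ} (hr : 0 ≤ r) (hr1 : r < 1) {φ : E n ≃ₜ E n}
    (hφ : φ ∈ HK n {x | Q x ≤ r ^ 2}) {b : ℝ} (hb : 0 < b) (hbr : b * r < 1) :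
    dl hb φ ∈ HK n {x | Q x ≤ (b * r) ^ 2} := by
  obtain ⟨h1, u, h2, h3, h4⟩ := hφ
  have hout : ∀ x : E n, x ∉ {x : E n | Q x ≤ (b * r) ^ 2} → b⁻¹ • x ∉ {x : E n | Q x ≤ r ^ 2} := by
    intro x hx hx'
    apply hx
    have h5 : Q (b⁻¹ • x) ≤ r ^ 2 := hx'
    rw [Q_le_iff hr, nm_smul, abs_of_pos (inv_pos.2 hb), inv_mul_le_iff₀ hb] at h5
    exact (Q_le_iff (mul_nonneg hb.le hr)).2 h5
  refine ⟨fun x hx => ?_, fun k => dl hb (u k), fun k x hx => ?_, fun k => ?_, ?_⟩
  · rw [dl_apply, h1 _ (hout x hx), smul_inv_smul₀ hb.ne']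
  · rw [dl_apply, h2 k _ (hout x hx), smul_inv_smul₀ hb.ne']
  · refine ham_expand hn (h3 k) hr hr1 (fun x hx => h2 k x fun hx' => ?_) hb hbr
    exact not_le.2 hx ((Q_le_iff hr).1 hx')
  · rw [Metric.tendstoUniformly_iff] at h4 ⊢
    intro ε hε
    filter_upwards [h4 (ε / b) (by positivity)] with k hk x
    have h5 := hk (b⁻¹ • x)
    rw [lt_div_iff₀ hb] at h5
    rw [dl_apply, dl_apply, dist_smul₀, Real.norm_of_nonneg hb.le, mul_comm]
    exact h5

end Pool.Agent.D0H79.HX
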