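import Pool.Agent.D0H79.HX.Uni
import Pool.Agent.D0H79.HX.Pth
import Pool.Agent.R773.HN.Fin3

/-!
# Normal subgroups of the group of Hamiltonian homeomorphisms: the dichotomy
-/

set_option autoImplicit false

open Set Filter Topology Function MeasureTheory
open Pool.Agent.Y453.HB
open Pool.Agent.Y309.HB
open Pool.Agent.N235.DH
open Pool.Agent.R773.HN (nm nm_nonneg nm_smul nm_cont SmS Supp D)
open scoped Pointwise

namespace Pool.Agent.D0H79.HX

attribute [local instance] htop
attribute [local instance] polish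
attribute [local instance] topGroup

variable {n : ℕ}

/-- the conjugation by a contraction -/
noncomputable def del (n : ℕ) {s : ℝ} (hs : 0 < s) (hs1 : s ≤ 1) : HamBar n →* HamBar n where
  toFun := fun φ => ⟨dl hs φ.1, mem_ham.2 (dil_mem Pool.Agent.Y419.HB.dil_ham
    Pool.Agent.Y309.HB.uc hs hs1 (mem_ham.1 φ.2))⟩
  map_one' := Subtype.ext (by
    show dil s hs * 1 * (dil s hs)⁻¹ = 1
    group)
  map_mul' := fun φ ψ => Subtype.ext (by
    show dil s hs * (φ.1 * ψ.1) * (dil s hs)⁻¹ =
      dil s hs * φ.1 * (dil s hs)⁻¹ * (dil s hs * ψ.1 * (dil s hs)⁻¹)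
    group)

theorem del_cont {s : ℝ} (hs : 0 < s) (hs1 : s ≤ 1) : Continuous (del n hs hs1) := by
  refine Continuous.subtype_mk ?_ _
  show Continuous fun φ : HamBar n => dil s hs * φ.1 * (dil s hs)⁻¹
  exact (continuous_const.mul continuous_subtype_val).mul continuous_const

theorem del_del {s t : ℝ} (hs : 0 < s) (hs1 : s ≤ 1) (ht : 0 < t) (ht1 : t ≤ 1)
    (hst : 0 < s * t) (hst1 : s * t ≤ 1) (φ : HamBar n) :
    del n hs hs1 (del n ht ht1 φ) = del n hst hst1 φ := by
  refine Subtype.ext (Homeomorph.ext fun x => ?_)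
  show dl hs (dl ht φ.1) x = dl hst φ.1 x
  rw [dl_apply, dl_apply, dl_apply, smul_smul, smul_smul, mul_inv, mul_comm t⁻¹ s⁻¹]

/-- every Hamiltonian homeomorphism with support in a smaller ball is a dilate -/
theorem exists_del (hn : 0 < n) (k : ℕ) : ∃ (s : ℝ) (hs : 0 < s) (_ : s < 1), ∀ (hs1 : s ≤ 1)
    (φ : HamBar n), φ.1 ∈ HK n (Bd n k) → φ ∈ (del n hs hs1).range := by
  set c : ℝ := 1 - 1 / ((k : ℝ) + 2) with hc
  have hk : 1 / ((k : ℝ) + 2) ≤ 1 / 2 :=
    one_div_le_one_div_of_le (by norm_num) (by linarith [k.cast_nonneg (α := ℝ)])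
  have hk0 : 0 < 1 / ((k : ℝ) + 2) := by positivity
  have hc0 : 0 < c := by rw [hc]; linarith
  have hc1 : c < 1 := by rw [hc]; linarith
  set r : ℝ := √c with hr
  have hr0 : 0 < r := Real.sqrt_pos.2 hc0
  have hr1 : r < 1 := by
    rw [hr, Real.sqrt_lt' one_pos]
    linarith
  have hr2 : r ^ 2 = c := Real.sq_sqrt hc0.le
  refine ⟨(1 + r) / 2, by positivity, by linarith, fun hs1 φ hφ => ?_⟩
  have hs : 0 < (1 + r) / 2 := by positivity
  have hb : 0 < ((1 + r) / 2)⁻¹ := inv_pos.2 hs
  have hbr : ((1 + r) / 2)⁻¹ * r < 1 := by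
    rw [inv_mul_lt_iff₀ hs]
    linarith
  have h1 : φ.1 ∈ HK n {x | Q x ≤ r ^ 2} := by
    rw [hr2]
    exact hφ
  have h2 := HK_expand hn hr0.le hr1 h1 hb hbr
  have h3 : dl hb φ.1 ∈ HamBar n := by
    refine mem_ham.2 (HK_hamBar (Q_compact _) ?_ h2)
    intro x hx
    have h4 : Q x ≤ (((1 + r) / 2)⁻¹ * r) ^ 2 := hx
    have h5 : 0 ≤ ((1 + r) / 2)⁻¹ * r := by positivity
    show Q x < 1
    nlinarith
  refine ⟨⟨dl hb φ.1, h3⟩, Subtype.ext (Homeomorph.ext fun x => ?_)⟩
  show dl hs (dl hb φ.1) x = φ.1 x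
  rw [dl_apply, dl_apply, inv_inv, smul_inv_smul₀ hs.ne', smul_inv_smul₀ hs.ne']

theorem normalClosure_hom {G G' : Type} [Group G] [Group G'] (f : G →* G') {A : Set G} {x : G}
    (hx : x ∈ Subgroup.normalClosure A) : f x ∈ Subgroup.normalClosure (f '' A) := by
  have h1 : Subgroup.normalClosure A ≤ (Subgroup.normalClosure (f '' A)).comap f :=
    Subgroup.normalClosure_le_normal fun a ha =>
      Subgroup.subset_normalClosure (mem_image_of_mem f ha)
  exact h1 hx

theorem del_step {s t : ℝ} (hs : 0 < s) (hs1 : s ≤ 1) (ht : 0 < t) (ht1 : t ≤ 1)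
    (hst : 0 < s * t) (hst1 : s * t ≤ 1)
    (h : Subgroup.normalClosure ((del n hs hs1).range : Set (HamBar n)) = ⊤)
    (h' : Subgroup.normalClosure ((del n ht ht1).range : Set (HamBar n)) = ⊤) :
    Subgroup.normalClosure ((del n hst hst1).range : Set (HamBar n)) = ⊤ := by
  rw [eq_top_iff, ← h]
  refine Subgroup.normalClosure_le_normal ?_
  rintro _ ⟨ψ, rfl⟩
  have h1 : ψ ∈ Subgroup.normalClosure ((del n ht ht1).range : Set (HamBar n)) := by
    rw [h']
    trivial
  have h2 := normalClosure_hom (del n hs hs1) h1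
  refine Subgroup.normalClosure_mono ?_ h2
  rintro _ ⟨_, ⟨φ, rfl⟩, rfl⟩
  exact ⟨φ, (del_del hs hs1 ht ht1 hst hst1 φ).symm⟩

/-- If the elements of a smaller ball generate the group as a normal subgroup, then so do the
elements with small supports. -/
theorem frag_top {s : ℝ} (hs : 0 < s) (hs1 : s < 1)
    (h : Subgroup.normalClosure ((del n hs hs1.le).range : Set (HamBar n)) = ⊤) {ε : ℝ}
    (hε : 0 < ε) : Subgroup.normalClosure (SmS (HamBar n) ε) = ⊤ := by
  have key : ∀ j : ℕ, ∀ (h0 : 0 < s ^ (j + 1)) (h1 : s ^ (j + 1) ≤ 1),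
      Subgroup.normalClosure ((del n h0 h1).range : Set (HamBar n)) = ⊤ := by
    intro j
    induction j with
    | zero =>
      intro h0 h1
      simp only [zero_add, pow_one]
      exact h
    | succ j ih =>
      intro h0 h1
      have h2 : 0 < s ^ (j + 1) := by positivity
      have h3 : s ^ (j + 1) ≤ 1 := pow_le_one₀ hs.le hs1.le
      have h4 : 0 < s ^ (j + 1) * s := by positivity
      have h5 : s ^ (j + 1) * s ≤ 1 := by rw [← pow_succ]; exact h1
      have h6 := del_step h2 h3 hs hs1.le h4 h5 (ih h2 h3) h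
      simp only [← pow_succ] at h6
      exact h6
  obtain ⟨j, hj⟩ := exists_pow_lt_of_lt_one (lt_min hε one_pos) hs1
  have hj1 : s ^ (j + 1) < min ε 1 := by
    rw [pow_succ]
    exact (mul_le_of_le_one_right (by positivity) hs1.le).trans_lt hj
  have h0 : 0 < s ^ (j + 1) := by positivity
  have h1 : s ^ (j + 1) ≤ 1 := pow_le_one₀ hs.le hs1.le
  rw [eq_top_iff, ← key j h0 h1]
  refine Subgroup.normalClosure_mono ?_
  rintro _ ⟨φ, rfl⟩
  refine ⟨0, s ^ (j + 1), h0, (hj1.trans_le (min_le_left _ _)).le, ?_, fun x hx => ?_⟩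
  · have h2 : nm (0 : E n) = 0 := Pool.Agent.R773.HN.nm_zero
    rw [h2, zero_add]
    exact hj1.trans_le (min_le_right _ _)
  · have hx' : ¬ nm (x - 0) ≤ s ^ (j + 1) := hx
    rw [sub_zero, not_le] at hx'
    show dl h0 φ.1 x = x
    rw [dl_apply]
    have h3 : φ.1 ((s ^ (j + 1))⁻¹ • x) = (s ^ (j + 1))⁻¹ • x := by
      obtain ⟨K, -, hKQ, hKs⟩ := Pool.Agent.R773.HN.cpt_supp φ.2
      refine hKs _ fun hmem => ?_
      have h4 := Pool.Agent.R773.HN.nm_lt_one (hKQ hmem)
      rw [nm_smul, abs_of_pos (inv_pos.2 h0), inv_mul_lt_iff₀ h0, mul_one] at h4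
      exact lt_asymm hx' h4
    rw [h3, smul_inv_smul₀ h0.ne']

theorem countable_closure {G : Type} [Group G] {A : Set G} (hA : A.Countable) :
    (Subgroup.closure A : Set G).Countable := by
  rw [closure_eq]
  refine countable_iUnion fun m => ?_
  have hs : (sym A).Countable := hA.union (by
    rw [← Set.image_inv_eq_inv]
    exact hA.image _)
  induction m with
  | zero =>
    rw [pow_zero]
    exact countable_singleton _
  | succ m ih =>
    rw [pow_succ]
    exact ih.image2 hs _

theorem Bd_mono {k k' : ℕ} (h : k ≤ k') : Bd n k ⊆ Bd n k' := by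
  intro x hx
  have h1 : Q x ≤ 1 - 1 / ((k : ℝ) + 2) := hx
  have h2 : 1 / ((k' : ℝ) + 2) ≤ 1 / ((k : ℝ) + 2) :=
    one_div_le_one_div_of_le (by positivity) (by
      have : (k : ℝ) ≤ k' := by exact_mod_cast h
      linarith)
  show Q x ≤ 1 - 1 / ((k' : ℝ) + 2)
  linarith

theorem exists_common {X : Set (HamBar n)} (hX : X.Finite) :
    ∃ k, ∀ φ ∈ X, φ.1 ∈ HK n (Bd n k) := by
  induction X, hX using Set.Finite.induction_on with
  | empty => exact ⟨0, by simp⟩
  | @insert φ X _ _ ih =>
    obtain ⟨k, hk⟩ := ih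
    have h1 : φ.1 ∈ ⋃ k, HK n (Bd n k) := by
      rw [← ham_iUnion]
      exact φ.2
    obtain ⟨j, hj⟩ := mem_iUnion.1 h1
    refine ⟨max j k, ?_⟩
    rintro ψ (rfl | hψ)
    · exact HK_mono (Bd_mono (le_max_left _ _)) hj
    · exact HK_mono (Bd_mono (le_max_right _ _)) (hk ψ hψ)

/-- The dichotomy: the group is simple, or every finite subset is contained in a normal subgroup of
index continuum. -/
theorem dichotomy (hn : 0 < n) (hns : ¬ IsSimpleGroup (HamBar n)) {X : Set (HamBar n)}
    (hX : X.Finite) : ∃ N : Subgroup (HamBar n), N.Normal ∧ X ⊆ N ∧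
      Cardinal.mk (HamBar n ⧸ N) = Cardinal.continuum := by
  obtain ⟨S, -, -, -, -, -, -, -, hS⟩ := Pool.Agent.R773.HN.main_of' Pool.Agent.R773.HN.hSm
    Pool.Agent.R773.HN.hCo hn (HamBar n)
    (fun u hu => mem_ham.2 (ham_mem hu)) le_rfl
  have h1 := (hS (1 / 100) (by norm_num) le_rfl).2
  rw [h1, not_and_or] at hns
  by_cases hfr : Subgroup.normalClosure (SmS (HamBar n) (1 / 100)) = ⊤
  · have hc : commutator (HamBar n) ≠ ⊤ := by
      rcases hns with h | h
      · exact absurd hfr h
      · exact h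
    set N : Subgroup (HamBar n) :=
      Subgroup.closure ((commutator (HamBar n) : Set (HamBar n)) ∪ X) with hN
    have hcN : commutator (HamBar n) ≤ N := fun x hx => Subgroup.subset_closure (Or.inl hx)
    have hNn : N.Normal := Subgroup.Normal.of_commutator_le _ hcN
    refine ⟨N, hNn, fun x hx => Subgroup.subset_closure (Or.inr hx), ?_⟩
    have hNa : AnalyticSet (N : Set (HamBar n)) :=
      an_closure (an_union (an_commutator an_ham) (an_countable hX.countable))
    refine (dich N hNa).resolve_left fun htop => ?_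
    have h2 := (dich _ (an_commutator (an_ham (n := n)))).resolve_left hc
    have h3 : (univ : Set (HamBar n ⧸ commutator (HamBar n))).Countable := by
      have h4 : (Subgroup.closure ((QuotientGroup.mk' (commutator (HamBar n))) '' X) :
          Set (HamBar n ⧸ commutator (HamBar n))).Countable :=
        countable_closure (hX.countable.image _)
      refine h4.mono fun q _ => ?_
      obtain ⟨x, rfl⟩ := QuotientGroup.mk'_surjective (commutator (HamBar n)) q
      have h5 : N ≤ (Subgroup.closure ((QuotientGroup.mk' (commutator (HamBar n))) '' X)).comap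
          (QuotientGroup.mk' (commutator (HamBar n))) := by
        rw [hN, Subgroup.closure_le]
        rintro y (hy | hy)
        · have h6 : QuotientGroup.mk' (commutator (HamBar n)) y = 1 :=
            (QuotientGroup.eq_one_iff y).2 hy
          rw [SetLike.mem_coe, Subgroup.mem_comap, h6]
          exact one_mem _
        · exact Subgroup.subset_closure (mem_image_of_mem _ hy)
      have h7 : x ∈ N := by rw [htop]; trivial
      exact h5 h7
    have h4 : Cardinal.mk (HamBar n ⧸ commutator (HamBar n)) ≤ Cardinal.aleph0 :=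
      Cardinal.mk_le_aleph0_iff.2 (countable_univ_iff.1 h3)
    rw [h2] at h4
    exact absurd h4 (not_le.2 Cardinal.aleph0_lt_continuum)
  · obtain ⟨k, hk⟩ := exists_common hX
    obtain ⟨s, hs, hs1, hdel⟩ := exists_del hn k
    refine ⟨Subgroup.normalClosure ((del n hs hs1.le).range : Set (HamBar n)),
      Subgroup.normalClosure_normal, fun φ hφ =>
        Subgroup.subset_normalClosure (hdel hs1.le φ (hk φ hφ)), ?_⟩
    have hNa : AnalyticSet ((del n hs hs1.le).range : Set (HamBar n)) := by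
      rw [MonoidHom.coe_range, ← image_univ]
      exact an_ham.image_of_continuous (del_cont hs hs1.le)
    exact (dich _ (an_normalClosure an_ham hNa)).resolve_left fun h => hfr (frag_top hs hs1 h
      (by norm_num))

end Pool.Agent.D0H79.HX
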