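import Pool.Agent.D0H79.HX.Top
import Pool.Agent.D0H79.HX.Bai
import Pool.Agent.D0H79.HX.Ana
import Pool.Agent.N235.DH.Flow

/-!
# The group of Hamiltonian homeomorphisms of the ball as a union of Polish groups
-/

set_option autoImplicit false

open Set Filter Topology Function MeasureTheory
open Pool.Agent.Y453.HB
open Pool.Agent.Y309.HB
open Pool.Agent.N235.DH

namespace Pool.Agent.D0H79.HX

attribute [local instance] htop
attribute [local instance] polish
attribute [local instance] topGroup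

variable {n : ℕ}

theorem tendsto_uconv {u : ℕ → (E n ≃ₜ E n)} {g : E n ≃ₜ E n} (h : UConv u g) :
    Tendsto u atTop (𝓝 g) := tendsto_of h.1 (uc_inv h).1

theorem HK_isClosed {K : Set (E n)} (hK : IsCompact K) : IsClosed (HK n K) := by
  refine IsSeqClosed.isClosed fun u g hu hg => ?_
  have h1 : ∀ x, x ∉ K → g x = x := by
    intro x hx
    have h2 : Tendsto (fun k => u k x) atTop (𝓝 (g x)) := ((eval_cont x).tendsto g).comp hg
    have h3 : (fun k => u k x) = fun _ => x := funext fun k => (hu k).1 x hx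
    rw [h3] at h2
    exact tendsto_nhds_unique h2 tendsto_const_nhds
  exact HK_closed hu h1 (unif_of hK (fun k => (hu k).1) h1 hg)

theorem HK_mono {K K' : Set (E n)} (h : K ⊆ K') : HK n K ⊆ HK n K' := by
  rintro φ ⟨h1, u, h2, h3, h4⟩
  exact ⟨fun x hx => h1 x fun hx' => hx (h hx'), u, fun k x hx => h2 k x fun hx' => hx (h hx'),
    h3, h4⟩

/-- closed balls -/
def Bd (n k : ℕ) : Set (E n) := {p | Q p ≤ 1 - 1 / ((k : ℝ) + 2)}

theorem Bd_compact (k : ℕ) : IsCompact (Bd n k) := Q_compact _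

theorem Bd_sub (k : ℕ) : Bd n k ⊆ {p : E n | Q p < 1} := by
  intro p hp
  have h1 : Q p ≤ 1 - 1 / ((k : ℝ) + 2) := hp
  have h2 : 0 < 1 / ((k : ℝ) + 2) := by positivity
  show Q p < 1
  linarith

theorem exists_Bd {K : Set (E n)} (hK : IsCompact K) (hKQ : K ⊆ {p : E n | Q p < 1}) :
    ∃ k, K ⊆ Bd n k := by
  rcases K.eq_empty_or_nonempty with rfl | hne
  · exact ⟨0, empty_subset _⟩
  · obtain ⟨p, hp, hmax⟩ := hK.exists_isMaxOn hne (Q_cont (n := n)).continuousOn
    have h1 : Q p < 1 := hKQ hp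
    obtain ⟨k, hk⟩ := exists_nat_gt (1 / (1 - Q p))
    refine ⟨k, fun x hx => ?_⟩
    have h2 : Q x ≤ Q p := hmax hx
    have h3 : 1 / ((k : ℝ) + 2) ≤ 1 - Q p := by
      rw [div_lt_iff₀ (by linarith)] at hk
      rw [div_le_iff₀ (by positivity)]
      nlinarith
    show Q x ≤ 1 - 1 / ((k : ℝ) + 2)
    linarith

/-- the Polish group of the limits supported in `K` -/
def HKs {K : Set (E n)} (hK : IsCompact K) : Subgroup (E n ≃ₜ E n) where
  carrier := HK n K
  mul_mem' := fun h h' => HK_mul hK h h'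
  one_mem' := HK_one K
  inv_mem' := fun h => HK_inv hK h

theorem mem_ham {φ : E n ≃ₜ E n} : φ ∈ HamBar n ↔ φ ∈ hamBar n :=
  mem_iff Pool.Agent.Y907.HB.mul Pool.Agent.Y510.HB.inv Pool.Agent.Y309.HB.uc

theorem ham_iUnion : (HamBar n : Set (E n ≃ₜ E n)) = ⋃ k, HK n (Bd n k) := by
  ext φ
  constructor
  · intro h
    obtain ⟨K, h1, h2, h3⟩ := mem_ham.1 h
    obtain ⟨k, hk⟩ := exists_Bd h1 h2
    exact mem_iUnion.2 ⟨k, HK_mono hk h3⟩
  · intro h
    obtain ⟨k, hk⟩ := mem_iUnion.1 h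
    exact mem_ham.2 (HK_hamBar (Bd_compact k) (Bd_sub k) hk)

theorem an_ham : AnalyticSet (univ : Set (HamBar n)) := by
  have h : (univ : Set (HamBar n)) =
      ⋃ k, range fun φ : HK n (Bd n k) =>
        (⟨φ.1, mem_ham.2 (HK_hamBar (Bd_compact k) (Bd_sub k) φ.2)⟩ : HamBar n) := by
    ext φ
    refine ⟨fun _ => ?_, fun _ => trivial⟩
    have h1 : φ.1 ∈ ⋃ k, HK n (Bd n k) := by
      rw [← ham_iUnion]
      exact φ.2
    obtain ⟨k, hk⟩ := mem_iUnion.1 h1
    exact mem_iUnion.2 ⟨k, ⟨φ.1, hk⟩, rfl⟩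
  rw [h]
  refine AnalyticSet.iUnion fun k => ?_
  have : PolishSpace (HK n (Bd n k)) := (HK_isClosed (Bd_compact k)).polishSpace
  exact analyticSet_range_of_polishSpace (continuous_subtype_val.subtype_mk _)

/-- A subgroup which contains a neighbourhood of `1` in all the groups of the limits supported in
closed balls contains all Hamiltonian homeomorphisms. -/
theorem open_all {M : Subgroup (E n ≃ₜ E n)}
    (h : ∀ k, ∃ U ∈ 𝓝 (1 : E n ≃ₜ E n), ∀ φ ∈ HK n (Bd n k), φ ∈ U → φ ∈ M) :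
    HamBar n ≤ M := by
  have key : ∀ K : Set (E n), IsCompact K → K ⊆ {p : E n | Q p < 1} →
      ∀ u : ℕ → (E n ≃ₜ E n), (∀ k, u k ∈ HK n K) → UConv u 1 → ∃ k, u k ∈ M := by
    intro K hK hKQ u hu hu1
    obtain ⟨k, hk⟩ := exists_Bd hK hKQ
    obtain ⟨U, hU, hUM⟩ := h k
    obtain ⟨j, hj⟩ := ((tendsto_uconv hu1).eventually hU).exists
    exact ⟨j, hUM _ (HK_mono hk (hu j)) hj⟩
  have one : ∀ K : Set (E n), IsCompact K → K ⊆ {p : E n | Q p < 1} →
      ∀ Φ : ℝ → (E n ≃ₜ E n), OneParam K Φ → Φ 1 ∈ M := by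
    intro K hK hKQ Φ hΦ
    have h0 : Φ 0 = 1 := by
      have h1 := hΦ.add 0 0
      rw [add_zero] at h1
      exact left_eq_mul.1 h1
    have h2 : UConv (fun k : ℕ => Φ (1 / ((k : ℝ) + 1))) 1 := by
      have h3 := path_cont hK [Φ] (fun Ψ hΨ => by rw [List.mem_singleton.1 hΨ]; exact hΦ)
        (fun k : ℕ => 1 / ((k : ℝ) + 1)) 0 tendsto_one_div_add_atTop_nhds_zero_nat
      simp only [List.map_cons, List.map_nil, List.prod_cons, List.prod_nil, mul_one, h0] at h3
      exact h3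
    obtain ⟨k, hk⟩ := key K hK hKQ _ (fun k => HK_ham (hΦ.ham _) (hΦ.supp _)) h2
    have h4 : ∀ m : ℕ, ∀ t : ℝ, Φ (m * t) = Φ t ^ m := by
      intro m t
      induction m with
      | zero => simp [h0]
      | succ m ih =>
        rw [pow_succ, ← ih, ← hΦ.add]
        congr 1
        push_cast
        ring
    have h5 : Φ 1 = Φ (1 / ((k : ℝ) + 1)) ^ (k + 1) := by
      rw [← h4]
      congr 1
      push_cast
      field_simp
    rw [h5]
    exact M.pow_mem hk _
  have ham : ∀ v : E n ≃ₜ E n, IsHam v → v ∈ M := by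
    intro v hv
    obtain ⟨K, hK, hKQ, hvs, w, hw, hwl⟩ := ham_approx hv
    have hwM : ∀ m, w m ∈ M := by
      intro m
      obtain ⟨l, hl, hlw⟩ := hwl m
      rw [hlw]
      refine M.list_prod_mem fun y hy => ?_
      obtain ⟨Φ, hΦ, rfl⟩ := List.mem_map.1 hy
      exact one K hK hKQ Φ (hl Φ hΦ)
    have hwK : ∀ m, w m ∈ HK n K := by
      intro m
      obtain ⟨l, hl, hlw⟩ := hwl m
      rw [hlw]
      have h1 := path_mem l hl 1
      exact HK_ham h1.1 h1.2
    have h1 : UConv (fun m => (w m)⁻¹ * v) 1 := by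
      have h2 := uc_mul (uc_inv hw) (uconv_const hK hvs)
      rwa [inv_mul_cancel] at h2
    obtain ⟨m, hm⟩ := key K hK hKQ _
      (fun m => HK_mul hK (HK_inv hK (hwK m)) (HK_ham hv hvs)) h1
    have h3 := M.mul_mem (hwM m) hm
    rwa [mul_inv_cancel_left] at h3
  intro φ hφ
  obtain ⟨K, hK, hKQ, hs, u, h1, h2, h3⟩ := mem_ham.1 hφ
  have h4 : UConv u φ := uconv_of uc hK hs h3
  have h5 : UConv (fun m => (u m)⁻¹ * φ) 1 := by
    have h6 := uc_mul (uc_inv h4) (uconv_const hK hs)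
    rwa [inv_mul_cancel] at h6
  obtain ⟨m, hm⟩ := key K hK hKQ _
    (fun m => HK_mul hK (HK_inv hK (HK_ham (h2 m) (h1 m))) ⟨hs, u, h1, h2, h3⟩) h5
  have h7 := M.mul_mem (ham _ (h2 m)) hm
  rwa [mul_inv_cancel_left] at h7

/-- the inclusion of the limits supported in a closed ball -/
def inc (n k : ℕ) : HKs (Bd_compact (n := n) k) →* HamBar n where
  toFun := fun φ => ⟨φ.1, mem_ham.2 (HK_hamBar (Bd_compact k) (Bd_sub k) φ.2)⟩
  map_one' := rfl
  map_mul' := fun _ _ => rfl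

theorem inc_cont (k : ℕ) : Continuous (inc n k) := continuous_subtype_val.subtype_mk _

theorem HKs_polish (k : ℕ) : PolishSpace (HKs (Bd_compact (n := n) k)) :=
  IsClosed.polishSpace (HK_isClosed (Bd_compact k))

/-- the cardinality of the group is at most continuum -/
theorem card_ham : Cardinal.mk (HamBar n) ≤ Cardinal.continuum := by
  obtain ⟨f, -, hf⟩ := PolishSpace.exists_nat_nat_continuous_surjective (E n ≃ₜ E n)
  have h1 : Cardinal.mk (E n ≃ₜ E n) ≤ Cardinal.mk (ℕ → ℕ) := Cardinal.mk_le_of_surjective hf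
  have h2 : Cardinal.mk (ℕ → ℕ) = Cardinal.continuum := by simp
  have h3 : Cardinal.mk (HamBar n) ≤ Cardinal.mk (E n ≃ₜ E n) :=
    Cardinal.mk_le_of_injective Subtype.val_injective
  exact h3.trans (h1.trans_eq h2)

/-- An analytic subgroup is the whole group or has index continuum. -/
theorem dich (N : Subgroup (HamBar n)) (hN : AnalyticSet (N : Set (HamBar n))) :
    N = ⊤ ∨ Cardinal.mk (HamBar n ⧸ N) = Cardinal.continuum := by
  by_cases hall : ∀ k, ∃ U ∈ 𝓝 (1 : E n ≃ₜ E n), ∀ φ ∈ HK n (Bd n k), φ ∈ U →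
      φ ∈ N.map (HamBar n).subtype
  · left
    rw [eq_top_iff]
    intro φ _
    obtain ⟨ψ, hψ, hψφ⟩ := open_all hall φ.2
    have : ψ = φ := Subtype.ext hψφ
    rwa [← this]
  · right
    push Not at hall
    obtain ⟨k, hk⟩ := hall
    refine le_antisymm ?_ ?_
    · exact (Cardinal.mk_le_of_surjective (QuotientGroup.mk_surjective (s := N))).trans card_ham
    have := HKs_polish (n := n) k
    have h1 : AnalyticSet ((N.comap (inc n k) : Subgroup _) : Set (HKs (Bd_compact (n := n) k))) :=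
      hN.preimage (inc_cont k)
    have h2 : ((N.comap (inc n k) : Subgroup _) : Set (HKs (Bd_compact (n := n) k))) ∉
        𝓝 (1 : HKs (Bd_compact (n := n) k)) := by
      intro h3
      rw [nhds_subtype_eq_comap, mem_comap] at h3
      obtain ⟨U, hU, hUN⟩ := h3
      obtain ⟨φ, hφ, hφU, hφN⟩ := hk U hU
      have h4 : (⟨φ, hφ⟩ : HKs (Bd_compact (n := n) k)) ∈ N.comap (inc n k) := hUN hφU
      exact hφN ⟨inc n k ⟨φ, hφ⟩, h4, rfl⟩
    refine (index h1 h2).trans ?_
    refine Cardinal.mk_le_of_injective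
      (f := fun q : (HKs (Bd_compact (n := n) k)) ⧸ N.comap (inc n k) =>
        (QuotientGroup.mk (inc n k q.out) : HamBar n ⧸ N)) fun a b hab => ?_
    have h3 : (inc n k a.out)⁻¹ * inc n k b.out ∈ N := QuotientGroup.eq.1 hab
    have h4 : (a.out)⁻¹ * b.out ∈ N.comap (inc n k) := by
      rw [Subgroup.mem_comap, map_mul, map_inv]
      exact h3
    rw [← QuotientGroup.out_eq' a, ← QuotientGroup.out_eq' b]
    exact QuotientGroup.eq.2 h4

end Pool.Agent.D0H79.HX
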