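import Pool.Agent.D0H79.HX.Sym
import Pool.Agent.R773.HN.Grp

/-!
# The generating function of a Hamiltonian diffeomorphism for dilations
-/

set_option autoImplicit false

open Set Filter Topology Function
open scoped ContDiff
open Pool.Agent.Y453.HB

namespace Pool.Agent.D0H79.HX

variable {n : ℕ}

/-- the `1`-form `Ω(u x, Du(x) v) - Ω(x, v)` -/
noncomputable def form (u : E n → E n) (x : E n) : E n →L[ℝ] ℝ :=
  (om n (u x)).comp (fderiv ℝ u x) - om n x

theorem form_apply (u : E n → E n) (x v : E n) :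
    form u x v = om n (u x) (fderiv ℝ u x v) - om n x v := rfl

theorem form_smooth {u : E n → E n} (hu : ContDiff ℝ ∞ u) : ContDiff ℝ ∞ (form u) := by
  have h1 : ContDiff ℝ ∞ (fderiv ℝ u) := hu.fderiv_right (by norm_cast)
  exact (((om n).contDiff.comp hu).clm_comp h1).sub (om n).contDiff

theorem form_closed {u : E n → E n} (hu : ContDiff ℝ ∞ u)
    (hs : ∀ x a b, om n (fderiv ℝ u x a) (fderiv ℝ u x b) = om n a b) (x a b : E n) :
    fderiv ℝ (form u) x a b = fderiv ℝ (form u) x b a := by
  have h1 : ContDiff ℝ ∞ (fderiv ℝ u) := hu.fderiv_right (by norm_cast)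
  have hu1 : HasFDerivAt u (fderiv ℝ u x) x := (hu.differentiable (by simp) x).hasFDerivAt
  have h2 : HasFDerivAt (fderiv ℝ u) (fderiv ℝ (fderiv ℝ u) x) x :=
    (h1.differentiable (by simp) x).hasFDerivAt
  have key : ∀ a b : E n, fderiv ℝ (form u) x a b =
      om n (fderiv ℝ u x a) (fderiv ℝ u x b) + om n (u x) (fderiv ℝ (fderiv ℝ u) x a b) -
        om n a b := by
    intro a b
    have h3 : HasFDerivAt (fun y => form u y b)
        (((om n (u x)).comp ((ContinuousLinearMap.apply ℝ (E n) b).comp
          (fderiv ℝ (fderiv ℝ u) x)) +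
          ((om n).flip (fderiv ℝ u x b)).comp (fderiv ℝ u x)) - (om n).flip b) x := by
      have h4 : HasFDerivAt (fun y => fderiv ℝ u y b)
          ((ContinuousLinearMap.apply ℝ (E n) b).comp (fderiv ℝ (fderiv ℝ u) x)) x :=
        HasFDerivAt.comp (g := ContinuousLinearMap.apply ℝ (E n) b) x
          (ContinuousLinearMap.hasFDerivAt _) h2
      have h5 : HasFDerivAt (fun y => om n (u y)) ((om n).comp (fderiv ℝ u x)) x :=
        HasFDerivAt.comp (g := om n) x (om n).hasFDerivAt hu1
      have h6 := h5.clm_apply h4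
      have h7 : HasFDerivAt (fun y => om n y b) ((om n).flip b) x := ((om n).flip b).hasFDerivAt
      exact h6.sub h7
    have h8 : HasFDerivAt (fun y => form u y b)
        ((ContinuousLinearMap.apply ℝ ℝ b).comp (fderiv ℝ (form u) x)) x :=
      HasFDerivAt.comp (g := ContinuousLinearMap.apply ℝ ℝ b) x
        (ContinuousLinearMap.hasFDerivAt _)
        ((form_smooth hu).differentiable (by simp) x).hasFDerivAt
    have h9 := congrArg (fun T => T a) (h8.unique h3)
    simp only [ContinuousLinearMap.comp_apply, ContinuousLinearMap.apply_apply] at h9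
    rw [h9]
    simp only [sub_apply, add_apply, ContinuousLinearMap.comp_apply,
      ContinuousLinearMap.apply_apply, ContinuousLinearMap.flip_apply]
    ring
  rw [key, key, hs, hs]
  have hsym : fderiv ℝ (fderiv ℝ u) x a b = fderiv ℝ (fderiv ℝ u) x b a :=
    ((hu.contDiffAt.of_le (by norm_cast)).isSymmSndFDerivAt (n := 2) (by simp)) a b
  rw [hsym]
  ring

/-- the primitive -/
theorem exists_prim {u : E n → E n} (hu : ContDiff ℝ ∞ u)
    (hs : ∀ x a b, om n (fderiv ℝ u x a) (fderiv ℝ u x b) = om n a b) :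
    ∃ A : E n → ℝ, ContDiff ℝ ∞ A ∧ ∀ x, HasFDerivAt A (form u x) x := by
  obtain ⟨A, hA⟩ := convex_univ.exists_forall_hasFDerivAt_of_fderiv_symmetric isOpen_univ
    ((form_smooth hu).differentiable (by simp)).differentiableOn
    (fun x _ a b => form_closed hu hs x a b)
  have hA' : ∀ x, HasFDerivAt A (form u x) x := fun x => hA x trivial
  refine ⟨A, ?_, hA'⟩
  rw [contDiff_infty_iff_fderiv]
  refine ⟨fun x => (hA' x).differentiableAt, ?_⟩
  have h1 : fderiv ℝ A = form u := funext fun x => (hA' x).fderiv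
  rw [h1]
  exact form_smooth hu

/-- the complement of a closed ball is connected -/
theorem conn_compl (hn : 0 < n) {r : ℝ} (hr : 0 ≤ r) :
    IsPreconnected {x : E n | r < Pool.Agent.R773.HN.nm x} := by
  have hrank : 1 < Module.rank ℝ (E n) := by
    rw [← Module.finrank_eq_rank]
    have h1 : Module.finrank ℝ (E n) = n + n := by
      rw [Module.finrank_prod, Module.finrank_fintype_fun_eq_card, Fintype.card_fin]
    rw [h1]
    exact_mod_cast (by omega : 1 < n + n)
  have h0 : IsPreconnected ({0}ᶜ : Set (E n)) :=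
    (isConnected_compl_singleton_of_one_lt_rank hrank 0).isPreconnected
  have hpos : ∀ x : E n, x ≠ 0 → 0 < Pool.Agent.R773.HN.nm x := by
    intro x hx
    rcases (Pool.Agent.R773.HN.nm_nonneg x).lt_or_eq with h | h
    · exact h
    · exfalso
      apply hx
      have h1 := Pool.Agent.R773.HN.norm_le_nm x
      rw [← h] at h1
      exact norm_le_zero_iff.1 h1
  have himg : {x : E n | r < Pool.Agent.R773.HN.nm x} =
      (fun x : E n => (1 + r / Pool.Agent.R773.HN.nm x) • x) '' ({0}ᶜ : Set (E n)) := by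
    ext y
    constructor
    · intro hy
      have hy' : r < Pool.Agent.R773.HN.nm y := hy
      have hy0 : 0 < Pool.Agent.R773.HN.nm y := lt_of_le_of_lt hr hy'
      set c : ℝ := (Pool.Agent.R773.HN.nm y - r) / Pool.Agent.R773.HN.nm y with hc
      have hc0 : 0 < c := div_pos (by linarith) hy0
      have hnc : Pool.Agent.R773.HN.nm (c • y) = Pool.Agent.R773.HN.nm y - r := by
        rw [Pool.Agent.R773.HN.nm_smul, abs_of_pos hc0, hc]
        field_simp
      refine ⟨c • y, ?_, ?_⟩
      · intro h
        rw [mem_singleton_iff] at h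
        rw [h, Pool.Agent.R773.HN.nm_zero] at hnc
        linarith
      · show (1 + r / Pool.Agent.R773.HN.nm (c • y)) • c • y = y
        rw [hnc, smul_smul]
        have h1 : (1 + r / (Pool.Agent.R773.HN.nm y - r)) * c = 1 := by
          rw [hc]
          have : Pool.Agent.R773.HN.nm y - r ≠ 0 := by linarith
          field_simp
          ring
        rw [h1, one_smul]
    · rintro ⟨x, hx, rfl⟩
      have hx0 := hpos x hx
      show r < Pool.Agent.R773.HN.nm ((1 + r / Pool.Agent.R773.HN.nm x) • x)
      rw [Pool.Agent.R773.HN.nm_smul, abs_of_nonneg (by positivity)]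
      have h1 : (1 + r / Pool.Agent.R773.HN.nm x) * Pool.Agent.R773.HN.nm x =
          Pool.Agent.R773.HN.nm x + r := by
        field_simp
      rw [h1]
      linarith
  rw [himg]
  have hcont : ContinuousOn (fun x : E n => 1 + r / Pool.Agent.R773.HN.nm x) ({0}ᶜ : Set (E n)) :=
    continuousOn_const.add (continuousOn_const.div
      Pool.Agent.R773.HN.nm_cont.continuousOn fun x hx => (hpos x hx).ne')
  exact h0.image _ (hcont.smul continuousOn_id)

/-- The function whose Hamiltonian vector field is `z - Du(u⁻¹ z) u⁻¹ z`, for a symplectic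
diffeomorphism with support in a ball. -/
theorem exists_pot (hn : 0 < n) {u : E n ≃ₜ E n} (hu : IsHam u) {r : ℝ} (hr : 0 ≤ r)
    (hsupp : ∀ x, r < Pool.Agent.R773.HN.nm x → u x = x) :
    ∃ g : E n → ℝ, ContDiff ℝ ∞ g ∧ (∀ z, r < Pool.Agent.R773.HN.nm z → g z = 0) ∧
      ∀ x, XH g (u x) = u x - fderiv ℝ (fun x => u x) x x := by
  obtain ⟨hu1, hu2, hu3⟩ := ham_sympl hu
  obtain ⟨A, hA1, hA2⟩ := exists_prim hu1 hu3
  have hopen : IsOpen {x : E n | r < Pool.Agent.R773.HN.nm x} :=
    isOpen_lt continuous_const Pool.Agent.R773.HN.nm_cont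
  have hzero : ∀ x, r < Pool.Agent.R773.HN.nm x → form (fun x => u x) x = 0 := by
    intro x hx
    have h1 : (fun x => u x) =ᶠ[𝓝 x] id := by
      filter_upwards [hopen.mem_nhds hx] with y hy
      exact hsupp y hy
    refine ContinuousLinearMap.ext fun v => ?_
    rw [form_apply, h1.fderiv_eq, fderiv_id, hsupp x hx]
    simp
  obtain ⟨c, hc⟩ := hopen.exists_is_const_of_fderiv_eq_zero (conn_compl hn hr)
    (fun x _ => (hA2 x).differentiableAt.differentiableWithinAt)
    (fun x hx => by
      show fderiv ℝ A x = 0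
      rw [(hA2 x).fderiv, hzero x hx])
  refine ⟨fun z => A (u⁻¹ z) - c, (hA1.comp hu2).sub contDiff_const, fun z hz => ?_, fun x => ?_⟩
  · have h1 : u⁻¹ z = z := by
      have h2 := inv_apply_self u z
      rwa [hsupp z hz] at h2
    show A (u⁻¹ z) - c = 0
    rw [h1, hc z hz, sub_self]
  · refine om_nondeg fun v => ?_
    rw [om_XH]
    have h1 : HasFDerivAt (fun z => u⁻¹ z) (fderiv ℝ (fun z => u⁻¹ z) (u x)) (u x) :=
      (hu2.differentiable (by simp) _).hasFDerivAt
    have h2 : HasFDerivAt A (form (fun x => u x) x) (u⁻¹ (u x)) := by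
      rw [inv_apply_self]
      exact hA2 x
    have h3 : HasFDerivAt (fun z => A (u⁻¹ z) - c)
        ((form (fun x => u x) x).comp (fderiv ℝ (fun z => u⁻¹ z) (u x))) (u x) :=
      (HasFDerivAt.comp (g := A) (u x) h2 h1).sub_const c
    rw [h3.fderiv]
    have h4 : HasFDerivAt (fun x => u x) (fderiv ℝ (fun x => u x) x) (u⁻¹ (u x)) := by
      rw [inv_apply_self]
      exact (hu1.differentiable (by simp) x).hasFDerivAt
    have h5 : HasFDerivAt (fun z => u (u⁻¹ z))
        ((fderiv ℝ (fun x => u x) x).comp (fderiv ℝ (fun z => u⁻¹ z) (u x))) (u x) :=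
      HasFDerivAt.comp (g := fun x => u x) (u x) h4 h1
    have h6 : (fun z => u (u⁻¹ z)) = id := funext fun z => apply_inv_self u z
    have h7 : fderiv ℝ (fun x => u x) x (fderiv ℝ (fun z => u⁻¹ z) (u x) v) = v := by
      have h8 := h5.fderiv
      rw [h6, fderiv_id] at h8
      have h9 := congrArg (fun L => L v) h8
      simpa using h9.symm
    rw [ContinuousLinearMap.comp_apply, form_apply, h7, map_sub, sub_apply]
    congr 1
    conv_rhs => rw [← h7]
    rw [hu3]

end Pool.Agent.D0H79.HX
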