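import Pool.Agent.R773.HN.Bd
import Pool.Agent.D0H86.Flux.HF

/-!
# Hamiltonian diffeomorphisms are smooth and symplectic
-/

set_option autoImplicit false

open Set Filter Topology Function
open scoped ContDiff
open Pool.Agent.Y453.HB
open Pool.Agent.D0H86.Flux (HF)

namespace Pool.Agent.D0H79.HX

variable {n : ℕ}

/-- coordinates -/
noncomputable def pX (i : Fin n) : E n →L[ℝ] ℝ :=
  (ContinuousLinearMap.proj (R := ℝ) (φ := fun _ : Fin n => ℝ) i).comp
    (ContinuousLinearMap.fst ℝ (Fin n → ℝ) (Fin n → ℝ))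

/-- coordinates -/
noncomputable def pY (i : Fin n) : E n →L[ℝ] ℝ :=
  (ContinuousLinearMap.proj (R := ℝ) (φ := fun _ : Fin n => ℝ) i).comp
    (ContinuousLinearMap.snd ℝ (Fin n → ℝ) (Fin n → ℝ))

@[simp] theorem pX_apply (i : Fin n) (x : E n) : pX i x = x.1 i := rfl
@[simp] theorem pY_apply (i : Fin n) (x : E n) : pY i x = x.2 i := rfl

/-- the standard symplectic form -/
noncomputable def om (n : ℕ) : E n →L[ℝ] E n →L[ℝ] ℝ :=
  ∑ i : Fin n, ((pX i).smulRight (pY i) - (pY i).smulRight (pX i))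

theorem om_apply (a b : E n) : om n a b = ∑ i, (a.1 i * b.2 i - a.2 i * b.1 i) := by
  unfold om
  simp [ContinuousLinearMap.sum_apply]

theorem om_alt (a b : E n) : om n a b = -om n b a := by
  rw [om_apply, om_apply, ← Finset.sum_neg_distrib]
  exact Finset.sum_congr rfl fun i _ => by ring

theorem om_XH (h : E n → ℝ) (p v : E n) : om n (XH h p) v = fderiv ℝ h p v := by
  have h1 : v = ∑ i, (v.1 i • ((Pi.single i (1 : ℝ) : Fin n → ℝ), (0 : Fin n → ℝ)) +
      v.2 i • ((0 : Fin n → ℝ), (Pi.single i (1 : ℝ) : Fin n → ℝ))) := by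
    apply Prod.ext
    · funext j
      simp [Prod.fst_sum, Finset.sum_apply, Pi.single_apply]
    · funext j
      simp [Prod.snd_sum, Finset.sum_apply, Pi.single_apply]
  rw [om_apply]
  conv_rhs => rw [h1]
  rw [map_sum]
  refine Finset.sum_congr rfl fun i _ => ?_
  rw [map_add, map_smul, map_smul]
  unfold XH
  simp only [smul_eq_mul]
  ring

theorem om_nondeg {a b : E n} (h : ∀ v, om n a v = om n b v) : a = b := by
  apply Prod.ext
  · funext i
    have h1 := h ((0 : Fin n → ℝ), (Pi.single i (1 : ℝ) : Fin n → ℝ))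
    rw [om_apply, om_apply] at h1
    simpa [Pi.single_apply] using h1
  · funext i
    have h1 := h ((Pi.single i (1 : ℝ) : Fin n → ℝ), (0 : Fin n → ℝ))
    rw [om_apply, om_apply] at h1
    simpa [Pi.single_apply] using h1

open Pool.Agent.R773.HN.Bd in
theorem G_smooth {H : ℝ → E n → ℝ} (hH : ContDiff ℝ ∞ (Function.uncurry H)) :
    ContDiff ℝ ∞ (G H) := by
  have h1 : ContDiff ℝ ∞ (fun p : ℝ × E n => fderiv ℝ (Function.uncurry H) p) :=
    hH.fderiv_right (by norm_cast)
  have h2 : ∀ v : E n, ContDiff ℝ ∞ (fun p : ℝ × E n => fderiv ℝ (H p.1) p.2 v) := by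
    intro v
    have h3 : (fun p : ℝ × E n => fderiv ℝ (H p.1) p.2 v)
        = fun p : ℝ × E n => fderiv ℝ (Function.uncurry H) p ((0 : ℝ), v) := by
      funext p
      exact fderiv_slice hH p.1 p.2 v
    rw [h3]
    exact h1.clm_apply contDiff_const
  unfold G XH
  refine ContDiff.prodMk ?_ ?_
  · exact contDiff_pi.mpr fun i => h2 _
  · exact contDiff_pi.mpr fun i => (h2 _).neg

theorem XH_mul {h : E n → ℝ} (hh : Differentiable ℝ h) (a : ℝ) (y : E n) :
    XH (fun x => a * h x) y = a • XH h y := by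
  unfold XH
  rw [fderiv_const_mul (hh y)]
  apply Prod.ext
  · funext i
    simp
  · funext i
    simp

theorem deriv_st_zero {t : ℝ} (h : t ∉ Icc (0 : ℝ) 1) : deriv Real.smoothTransition t = 0 := by
  rcases lt_or_ge t 0 with h0 | h0
  · have h1 : Real.smoothTransition =ᶠ[𝓝 t] fun _ => (0 : ℝ) := by
      filter_upwards [gt_mem_nhds h0] with s hs
      exact Real.smoothTransition.zero_of_nonpos hs.le
    rw [h1.deriv_eq]
    simp
  · have h2 : 1 < t := by
      by_contra hcon
      exact h ⟨h0, not_lt.1 hcon⟩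
    have h1 : Real.smoothTransition =ᶠ[𝓝 t] fun _ => (1 : ℝ) := by
      filter_upwards [lt_mem_nhds h2] with s hs
      exact Real.smoothTransition.one_of_one_le hs.le
    rw [h1.deriv_eq]
    simp

open Pool.Agent.GR.Flow Pool.Agent.R773.HN in
theorem exists_HF {u : E n ≃ₜ E n} (hu : IsHam u) :
    ∃ (H : ℝ → E n → ℝ) (φ φi : ℝ → E n → E n),
      HF univ (fun _ => om n) H φ φi ∧ ∀ x, φ 1 x = u x := by
  obtain ⟨H0, hH0, ⟨K, hK, -, h0⟩, ψ, hψ0, hψ, hψ1⟩ := hu
  set β : ℝ → ℝ := Real.smoothTransition with hβd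
  have hβ : ContDiff ℝ ∞ β := Real.smoothTransition.contDiff
  have hβ' : ContDiff ℝ ∞ (deriv β) := (contDiff_infty_iff_deriv.1 hβ).2
  set H : ℝ → E n → ℝ := fun t x => deriv β t * H0 (β t) x with hHd
  have hH : ContDiff ℝ ∞ (Function.uncurry H) := by
    have h1 : ContDiff ℝ ∞ (fun p : ℝ × E n => ((β p.1, p.2) : ℝ × E n)) :=
      (hβ.comp contDiff_fst).prodMk contDiff_snd
    exact (hβ'.comp contDiff_fst).mul (hH0.comp h1)
  have hsl : ∀ t, Differentiable ℝ (H0 t) := fun t =>
    (hH0.differentiable (by simp)).comp (f := fun y : E n => ((t, y) : ℝ × E n)) (by fun_prop)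
  have hXH : ∀ t x, XH (H t) x = deriv β t • XH (H0 (β t)) x := fun t x =>
    XH_mul (hsl _) _ _
  have hoff : ∀ t x, x ∉ K → H t x = 0 := fun t x hx => by
    show deriv β t * H0 (β t) x = 0
    rw [h0 _ _ hx, mul_zero]
  have hW : ContDiff ℝ ∞ (Bd.G H) := G_smooth hH
  have hsupp : HasCompactSupport (Bd.G H) := by
    refine HasCompactSupport.intro ((isCompact_Icc (a := (0 : ℝ)) (b := 1)).prod hK) fun p hp => ?_
    by_cases h : p.1 ∈ Icc (0 : ℝ) 1
    · exact Bd.G_zero hK hoff p fun h2 => hp ⟨h, h2⟩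
    · show XH (H p.1) p.2 = 0
      rw [hXH, hβd, deriv_st_zero h, zero_smul]
  obtain ⟨C, hC⟩ := ContDiff.lipschitzWith_of_hasCompactSupport hsupp hW (by simp)
  obtain ⟨M, hM⟩ := hW.continuous.bounded_above_of_compact_support hsupp
  set Z : ℝ × E n → ℝ × E n := fun p => (1, Bd.G H p) with hZd
  have hZs : ContDiff ℝ ∞ Z := contDiff_const.prodMk hW
  have hZC : LipschitzWith (max 0 C) Z := (LipschitzWith.const (1 : ℝ)).prodMk hC
  have hZM : ∀ p, ‖Z p‖ ≤ ((max 1 (Real.toNNReal M) : NNReal) : ℝ) := by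
    intro p
    have h1 : ‖Z p‖ = max ‖(1 : ℝ)‖ ‖Bd.G H p‖ := rfl
    rw [h1, NNReal.coe_max]
    refine max_le_max ?_ ((hM p).trans (Real.le_coe_toNNReal M))
    simp
  choose γ hγ0 hγ using fun p => exists_solution hZC hZM p
  have hfl : IsFlowOf Z (fun t p => γ p t) := ⟨hγ0, fun p t => hγ p t⟩
  have hadd : ∀ t s p, γ p (t + s) = γ (γ p s) t := fun t s p => hfl.add hZC t s p
  have hcd : ContDiff ℝ ∞ (fun q : ℝ × (ℝ × E n) => γ q.2 q.1) := by
    rw [contDiff_infty]
    intro m
    have key : ContDiff ℝ (m + 1 : ℕ) (fun q : ℝ × (ℝ × E n) => γ q.2 q.1) :=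
      contDiff_flow (X := (⟨Z, hZs.continuous⟩ : C(ℝ × E n, ℝ × E n))) (m := m + 1) (by omega)
        (hZs.of_le (by exact_mod_cast le_top)) hZC hfl
    exact key.of_le (by exact_mod_cast Nat.le_succ m)
  have hg1 : ∀ t p, (γ p t).1 = p.1 + t := by
    intro t p
    have hd : ∀ t, HasDerivAt (fun t => (γ p t).1 - t) 0 t := by
      intro t
      have h1 : HasDerivAt (fun t => (γ p t).1) (Z (γ p t)).1 t := (hγ p t).fst
      have h2 := h1.sub (hasDerivAt_id t)
      have h3 : (Z (γ p t)).1 - 1 = 0 := sub_self (1 : ℝ)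
      rw [h3] at h2
      exact h2
    have h4 := is_const_of_deriv_eq_zero (fun t => (hd t).differentiableAt)
      (fun t => (hd t).deriv) t 0
    rw [hγ0] at h4
    linarith
  set φ : ℝ → E n → E n := fun t x => (γ (0, x) t).2 with hφd
  set φi : ℝ → E n → E n := fun t y => (γ (t, y) (-t)).2 with hφid
  have hφ' : ∀ t x, HasDerivAt (fun s => φ s x) (XH (H t) (φ t x)) t := by
    intro t x
    have h1 : HasDerivAt (fun s => (γ (0, x) s).2) (Z (γ (0, x) t)).2 t := (hγ (0, x) t).snd
    have h2 : (Z (γ (0, x) t)).2 = XH (H t) (φ t x) := by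
      show XH (H (γ (0, x) t).1) (γ (0, x) t).2 = _
      rw [hg1, zero_add]
    rw [h2] at h1
    exact h1
  have hF : HF univ (fun _ => om n) H φ φi :=
    { sH := hH
      sφ := contDiff_snd.comp (hcd.comp (contDiff_fst.prodMk (contDiff_const.prodMk contDiff_snd)))
      sφi := contDiff_snd.comp (hcd.comp ((contDiff_neg.comp contDiff_fst).prodMk
        (contDiff_fst.prodMk contDiff_snd)))
      left := fun t x => by
        show (γ (t, (γ (0, x) t).2) (-t)).2 = x
        have h1 : ((t, (γ (0, x) t).2) : ℝ × E n) = γ (0, x) t := by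
          apply Prod.ext
          · rw [hg1, zero_add]
          · rfl
        rw [h1, ← hadd, neg_add_cancel, hγ0]
      right := fun t y => by
        show (γ (0, (γ (t, y) (-t)).2) t).2 = y
        have h1 : ((0, (γ (t, y) (-t)).2) : ℝ × E n) = γ (t, y) (-t) := by
          apply Prod.ext
          · rw [hg1]; simp
          · rfl
        rw [h1, ← hadd, add_neg_cancel, hγ0]
      zero := fun x => by
        show (γ (0, x) 0).2 = x
        rw [hγ0]
      maps := fun _ _ _ => trivial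
      mapsi := fun _ _ _ => trivial
      eqn := fun t x _ v => by
        rw [(hφ' t x).deriv, om_XH] }
  refine ⟨H, φ, φi, hF, fun x => ?_⟩
  have hCx : ∀ t, LipschitzWith C (fun x => XH (H t) x) := by
    intro t
    have h1 : LipschitzWith (C * 1) (Bd.G H ∘ fun x : E n => ((t, x) : ℝ × E n)) :=
      hC.comp (LipschitzWith.prodMk_left t)
    rw [mul_one] at h1
    exact h1
  have hun : (fun t => φ t x) = fun t => ψ (β t) x := by
    refine ODE_solution_unique_univ (v := fun t x => XH (H t) x) (s := fun _ => univ) (K := C)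
      (t₀ := 0) (fun t => (hCx t).lipschitzOnWith) (fun t => ⟨hφ' t x, trivial⟩)
      (fun t => ⟨?_, trivial⟩) ?_
    · have hc1 : HasDerivAt β (deriv β t) t := (hβ.differentiable (by simp) t).hasDerivAt
      have h2 := (hψ (β t) x).scomp t hc1
      rw [hXH]
      exact h2
    · show φ 0 x = ψ (β 0) x
      rw [hF.zero, hβd, Real.smoothTransition.zero, hψ0]
  have h3 := congrFun hun 1
  simp only [hβd, Real.smoothTransition.one] at h3
  rw [h3, hψ1]

/-- Hamiltonian diffeomorphisms are smooth and preserve the symplectic form. -/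
theorem ham_sympl {u : E n ≃ₜ E n} (hu : IsHam u) : ContDiff ℝ ∞ (fun x => u x) ∧
    ContDiff ℝ ∞ (fun x => u⁻¹ x) ∧
    ∀ x a b, om n (fderiv ℝ (fun x => u x) x a) (fderiv ℝ (fun x => u x) x b) = om n a b := by
  obtain ⟨H, φ, φi, hF, h1⟩ := exists_HF hu
  have e1 : (fun x => u x) = φ 1 := funext fun x => (h1 x).symm
  have e2 : (fun x => u⁻¹ x) = φi 1 := by
    funext x
    have h2 : u (φi 1 x) = x := by rw [← h1, hF.right]
    have h3 : u⁻¹ (u (φi 1 x)) = φi 1 x := inv_apply_self u _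
    rw [h2] at h3
    exact h3
  refine ⟨?_, ?_, fun x a b => ?_⟩
  · rw [e1]
    exact Pool.Agent.D0H86.Flux.smooth_slice hF.sφ 1
  · rw [e2]
    exact Pool.Agent.D0H86.Flux.smooth_slice hF.sφi 1
  · rw [e1]
    refine hF.pres isOpen_univ contDiff_const (fun x u v => om_alt u v) (fun x _ u v w => ?_) 1
      (x := x) trivial a b
    simp

end Pool.Agent.D0H79.HX
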