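import Mathlib

/-!
# The group of homeomorphisms of a proper metric space as a Polish group
-/

set_option autoImplicit false

open Set Filter Topology Function

namespace Pool.Agent.D0H79.HX

variable {X : Type} [MetricSpace X] [ProperSpace X]

/-- a homeomorphism and its inverse -/
def pr (φ : X ≃ₜ X) : C(X, X) × C(X, X) :=
  (⟨fun x => φ x, φ.continuous⟩, ⟨fun x => φ⁻¹ x, (φ⁻¹).continuous⟩)

/-- the compact-open topology for the homeomorphism and its inverse -/
@[reducible] def htop (X : Type) [MetricSpace X] [ProperSpace X] : TopologicalSpace (X ≃ₜ X) :=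
  TopologicalSpace.induced pr inferInstance

attribute [local instance] htop

omit [ProperSpace X] in
theorem pr_inj : Injective (pr : (X ≃ₜ X) → C(X, X) × C(X, X)) := by
  intro φ ψ h
  refine Homeomorph.ext fun x => ?_
  exact congrArg (fun f : C(X, X) × C(X, X) => f.1 x) h

theorem pr_cont : Continuous (pr : (X ≃ₜ X) → C(X, X) × C(X, X)) := continuous_induced_dom

omit [ProperSpace X] in
theorem pr_range : range (pr : (X ≃ₜ X) → C(X, X) × C(X, X)) =
    {p | p.1.comp p.2 = ContinuousMap.id X ∧ p.2.comp p.1 = ContinuousMap.id X} := by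
  ext p
  constructor
  · rintro ⟨φ, rfl⟩
    constructor
    · ext x
      exact φ.apply_symm_apply x
    · ext x
      exact φ.symm_apply_apply x
  · rintro ⟨h1, h2⟩
    refine ⟨{ toFun := p.1
              invFun := p.2
              left_inv := fun x => DFunLike.congr_fun h2 x
              right_inv := fun x => DFunLike.congr_fun h1 x
              continuous_toFun := p.1.continuous
              continuous_invFun := p.2.continuous }, ?_⟩
    rfl

theorem pr_closed : IsClosedEmbedding (pr : (X ≃ₜ X) → C(X, X) × C(X, X)) := by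
  refine ⟨⟨⟨rfl⟩, pr_inj⟩, ?_⟩
  rw [pr_range]
  refine IsClosed.inter ?_ ?_
  · exact isClosed_eq (continuous_fst.compCM continuous_snd) continuous_const
  · exact isClosed_eq (continuous_snd.compCM continuous_fst) continuous_const

theorem polish : PolishSpace (X ≃ₜ X) := pr_closed.polishSpace

theorem topGroup : IsTopologicalGroup (X ≃ₜ X) where
  continuous_mul := by
    refine continuous_induced_rng.2 ?_
    have h1 : Continuous fun p : (X ≃ₜ X) × (X ≃ₜ X) => (pr p.1).1.comp (pr p.2).1 :=
      (continuous_fst.comp (pr_cont.comp continuous_fst)).compCM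
        (continuous_fst.comp (pr_cont.comp continuous_snd))
    have h2 : Continuous fun p : (X ≃ₜ X) × (X ≃ₜ X) => (pr p.2).2.comp (pr p.1).2 :=
      (continuous_snd.comp (pr_cont.comp continuous_snd)).compCM
        (continuous_snd.comp (pr_cont.comp continuous_fst))
    exact h1.prodMk h2
  continuous_inv := by
    refine continuous_induced_rng.2 ?_
    exact (continuous_snd.comp pr_cont).prodMk (continuous_fst.comp pr_cont)

/-- evaluation is continuous -/
theorem eval_cont (x : X) : Continuous fun φ : X ≃ₜ X => φ x := by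
  have h : Continuous fun φ : X ≃ₜ X => (pr φ).1 x :=
    (continuous_eval_const x).comp (continuous_fst.comp pr_cont)
  exact h

/-- convergence of homeomorphisms from uniform convergence of them and their inverses -/
theorem tendsto_of {u : ℕ → (X ≃ₜ X)} {g : X ≃ₜ X}
    (h1 : TendstoUniformly (fun (k : ℕ) (x : X) => u k x) (fun x => g x) atTop)
    (h2 : TendstoUniformly (fun (k : ℕ) (x : X) => (u k)⁻¹ x) (fun x => g⁻¹ x) atTop) :
    Tendsto u atTop (𝓝 g) := by
  rw [pr_closed.isInducing.tendsto_nhds_iff]
  refine Tendsto.prodMk_nhds ?_ ?_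
  · rw [ContinuousMap.tendsto_iff_forall_isCompact_tendstoUniformlyOn]
    intro K _
    exact h1.tendstoUniformlyOn
  · rw [ContinuousMap.tendsto_iff_forall_isCompact_tendstoUniformlyOn]
    intro K _
    exact h2.tendstoUniformlyOn

/-- convergence of homeomorphisms with support in a compact set is uniform -/
theorem unif_of {K : Set X} (hK : IsCompact K) {u : ℕ → (X ≃ₜ X)} {g : X ≃ₜ X}
    (hu : ∀ k, ∀ x, x ∉ K → u k x = x) (hg : ∀ x, x ∉ K → g x = x)
    (h : Tendsto u atTop (𝓝 g)) :
    TendstoUniformly (fun (k : ℕ) (x : X) => u k x) (fun x => g x) atTop := by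
  have h1 : Tendsto (fun k => (pr (u k)).1) atTop (𝓝 (pr g).1) :=
    ((continuous_fst.comp pr_cont).tendsto g).comp h
  rw [ContinuousMap.tendsto_iff_forall_isCompact_tendstoUniformlyOn] at h1
  have h2 := h1 K hK
  rw [Metric.tendstoUniformlyOn_iff] at h2
  rw [Metric.tendstoUniformly_iff]
  intro ε hε
  filter_upwards [h2 ε hε] with k hk x
  by_cases hx : x ∈ K
  · exact hk x hx
  · rw [hu k x hx, hg x hx, dist_self]
    exact hε

end Pool.Agent.D0H79.HX
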