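import Pool.Agent.D0H79.HX.Ham

/-!
# Bounded generation near the identity
-/

set_option autoImplicit false

open Set Filter Topology Function MeasureTheory
open Pool.Agent.Y453.HB
open Pool.Agent.Y309.HB
open Pool.Agent.N235.DH
open scoped Pointwise

namespace Pool.Agent.D0H79.HX

attribute [local instance] htop
attribute [local instance] polish
attribute [local instance] topGroup

variable {n : ℕ}

theorem nhd_eps {K : Set (E n)} (hK : IsCompact K) {U : Set (E n ≃ₜ E n)} (hU : U ∈ 𝓝 1) :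
    ∃ ε : ℝ, 0 < ε ∧ ∀ φ : E n ≃ₜ E n, (∀ x, x ∉ K → φ x = x) → (∀ x, dist (φ x) x < ε) →
      φ ∈ U := by
  by_contra hcon
  push Not at hcon
  choose u hu1 hu2 hu3 using fun k : ℕ => hcon (1 / ((k : ℝ) + 1)) (by positivity)
  have h1 : UConv u 1 := by
    refine uconv_of uc hK (fun x _ => rfl) ?_
    rw [Metric.tendstoUniformly_iff]
    intro ε hε
    have h2 := tendsto_one_div_add_atTop_nhds_zero_nat (𝕜 := ℝ)
    filter_upwards [h2.eventually (gt_mem_nhds hε)] with k hk x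
    rw [dist_comm]
    exact (hu2 k x).trans hk
  obtain ⟨k, hk⟩ := ((tendsto_uconv h1).eventually hU).exists
  exact hu3 k hk

theorem sym_inv {G : Type} [Group G] (A : Set G) : (sym A)⁻¹ = sym A := by
  unfold sym
  rw [Set.union_inv, inv_inv, union_comm]

/-- If an analytic set generates the limits supported in a closed ball, then the small ones are
products of a bounded number of its elements and their inverses. -/
theorem bounded {A : Set (HamBar n)} (hA : AnalyticSet A) (k : ℕ)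
    (hcl : ∀ φ : HKs (Bd_compact (n := n) k), inc n k φ ∈ Subgroup.closure A) :
    ∃ (m : ℕ) (ε : ℝ), 0 < ε ∧ ∀ φ : HKs (Bd_compact (n := n) k), (∀ x, dist (φ.1 x) x < ε) →
      inc n k φ ∈ (sym A) ^ m := by
  have := HKs_polish (n := n) k
  have han : ∀ m : ℕ, AnalyticSet (inc n k ⁻¹' ((sym A) ^ m)) := fun m =>
    (an_pow (an_sym hA) m).preimage (inc_cont k)
  have hex : ∃ m : ℕ, ¬ IsMeagre (inc n k ⁻¹' ((sym A) ^ m)) := by
    by_contra hcon
    push Not at hcon
    refine not_isMeagre_of_isOpen (X := HKs (Bd_compact (n := n) k)) isOpen_univ ⟨1, trivial⟩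
      ((isMeagre_iUnion hcon).mono fun φ _ => ?_)
    have h1 : inc n k φ ∈ (Subgroup.closure A : Set (HamBar n)) := hcl φ
    rw [closure_eq] at h1
    obtain ⟨m, hm⟩ := mem_iUnion.1 h1
    exact mem_iUnion.2 ⟨m, hm⟩
  obtain ⟨m, hm⟩ := hex
  obtain ⟨U, hU, hUm⟩ := pettis (han m) hm
  rw [nhds_subtype_eq_comap, mem_comap] at hU
  obtain ⟨V, hV, hVU⟩ := hU
  obtain ⟨ε, hε, hεV⟩ := nhd_eps (Bd_compact (n := n) k) hV
  refine ⟨m + m, ε, hε, fun φ hφ => ?_⟩
  obtain ⟨a, ha, b, hb, hab⟩ := hUm φ (hVU (hεV φ.1 φ.2.1 hφ))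
  rw [hab, map_mul, map_inv, pow_add]
  refine Set.mul_mem_mul ha ?_
  rw [← Set.inv_mem_inv, ← Set.inv_mem_inv] at hb
  have h2 : (inc n k b)⁻¹ ∈ ((sym A) ^ m)⁻¹ := by
    rw [Set.inv_mem_inv]
    simpa using hb
  rwa [← inv_pow, sym_inv] at h2

end Pool.Agent.D0H79.HX
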